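import Pool.Agent.Lib.MP_1dedaf_gt.DK.TM.F0
import Pool.Agent.Lib.MP_1dedaf_gt.Mg.G045

/-!
# TASK TM L3b: the single crossing inequality

`τ x = St - Xu x ≥ 0` on `[0, z]` (`Xu` is strictly increasing, `Xu z = St`), `G = K.Gf > 0` on `[0, z]` (`L3_G`), `W = τ / G`, `η = M/St`. `W` is antitone on `[0, z]`: `G = R1 - p τ` with `R1 > 0`, and `τ/(R1 - p τ)` is increasing in `τ` (for `τ ≤ τ'`: `τ (R1 - p τ') ≤ τ' (R1 - p τ)`).
Pointwise identity: `τ/ru - τ ru/G^2 = W (1 - ru/G)(1 + G/ru)`.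
We show: there is `Ws ≥ 0` with `τ/ru - τ ru/G^2 ≥ 2 Ws (1 - ru/G)` for all `x ∈ [0, z]`; then integrate: `∫ (1 - ru/G) = z - x1` (`L3_I1`), and `x1 ≤ z` since `Xu x1 = St - q mr x1 ≤ St = Xu z`.
Let `A = {x ∈ [0, z] | η < Yu x}`. If `A` is empty: `Yu ≤ η`, so `ru ≤ G` (`L3_Y`, `q > 0`) and with `Ws = 0` the left side is `≥ 0`. Otherwise let `s = sInf A ∈ [0, z]`, `Ws = W s`. For `x < s` in `[0, z]`: `x ∉ A`, `ru ≤ G`, `W x ≥ Ws`, `1 + G/ru ≥ 2`, `1 - ru/G ≥ 0`.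
For `x > s` in `[0, z]`: there is `x0 ∈ A` with `x0 < x`, and `Yu x ≥ min (Yu x0) (Yu x2) > η` (`Yu_qc` with `x0 ≤ x ≤ x2`), so `ru ≥ G`, `0 ≤ W x ≤ Ws`, `0 ≤ 1 + G/ru ≤ 2`, `1 - ru/G ≤ 0`. For `x = s`: `W x = Ws`, and `(1 - ru/G)((1 + G/ru) - 2) = (G - ru)^2/(G ru) ≥ 0`.
-/

set_option autoImplicit false

open MeasureTheory Set Filter Topology

namespace Pool.Agent.Lib.MP_1dedaf_gt.DK

namespace Bd

private theorem L3b_pt {τ r G Ws : ℝ} (hr : 0 < r) (hG : 0 < G)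
    (h : (r ≤ G ∧ 0 ≤ τ / G ∧ Ws ≤ τ / G) ∨ (G ≤ r ∧ 0 ≤ τ / G ∧ τ / G ≤ Ws)) :
    2 * Ws * (1 - r / G) ≤ τ / r - τ * r / G ^ 2 := by
  have e : τ / r - τ * r / G ^ 2 = (1 - r / G) * (τ / G * (1 + G / r)) := by
    field_simp
    ring
  rw [e]
  rcases h with ⟨h1, h2, h3⟩ | ⟨h1, h2, h3⟩
  · have a : 0 ≤ 1 - r / G := by
      have := (div_le_one hG).2 h1
      linarith
    have b : 1 ≤ G / r := (one_le_div hr).2 h1
    have c : 2 * Ws ≤ τ / G * (1 + G / r) := by nlinarith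
    nlinarith
  · have a : 1 - r / G ≤ 0 := by
      have := (one_le_div hG).2 h1
      linarith
    have b : G / r ≤ 1 := (div_le_one hr).2 h1
    have c : τ / G * (1 + G / r) ≤ 2 * Ws := by nlinarith
    nlinarith

theorem L3_cross (K : Bd) (h : K.CF) (hq : 0 < K.q) (hr : 0 < K.r 0) (z x2 : ℝ) (hz : 0 ≤ z) (hX : K.col.Xu z = K.St)
    (hz2 : z ≤ x2) (hx2 : x2 ≤ K.w) (hY : K.col.M / K.St < K.col.Yu x2) :
    K.r 0 ≤ z ∧ 0 ≤ ∫ x in (0:ℝ)..z, ((K.St - K.col.Xu x) / K.col.ru x - (K.St - K.col.Xu x) * K.col.ru x / K.Gf x ^ 2) := by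
  have hmono : StrictMono K.col.Xu := K.col.Xu_strictMono h.hq h.cl h.cu
  have hG := L3_G K h hq hr z hz hX
  have hru : ∀ x, 0 < K.col.ru x := K.col.ru_pos
  have hx1 : K.r 0 ≤ z := by
    rw [← hmono.le_iff_le, hX]
    have h1 : K.col.Xl (K.r 0) = K.St := Xl_t K h hr.le le_rfl
    have h2 := K.col.mr_nonneg (cReg K h) (K.r 0) ⟨hr.le, x1_le K h⟩
    have h3 : K.col.Xu (K.r 0) = K.St - K.q * K.col.mr (K.r 0) := by
      rw [← h1]
      rfl
    rw [h3]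
    have := mul_nonneg hq.le h2
    linarith
  refine ⟨hx1, ?_⟩
  have hτ : ∀ x ∈ Icc 0 z, 0 ≤ K.St - K.col.Xu x := by
    intro x hx
    have := hmono.monotone hx.2
    rw [hX] at this
    linarith
  set R1 : ℝ := Real.exp (K.p * K.r 0) * (1 + K.q * K.col.M / K.St) with hR1
  have hGe : ∀ x, K.Gf x = R1 - K.p * (K.St - K.col.Xu x) := fun x => rfl
  have hR1p : 0 < R1 := by
    have h1 := hG z ⟨hz, le_rfl⟩
    rw [hGe, hX, sub_self, mul_zero, sub_zero] at h1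
    exact h1
  have hW0 : ∀ x ∈ Icc 0 z, 0 ≤ (K.St - K.col.Xu x) / K.Gf x := fun x hx => div_nonneg (hτ x hx) (hG x hx).le
  have hanti : ∀ x ∈ Icc 0 z, ∀ y ∈ Icc 0 z, x ≤ y →
      (K.St - K.col.Xu y) / K.Gf y ≤ (K.St - K.col.Xu x) / K.Gf x := by
    intro x hx y hy hxy
    rw [div_le_div_iff₀ (hG y hy) (hG x hx), hGe, hGe]
    have h1 := hmono.monotone hxy
    nlinarith [mul_le_mul_of_nonneg_left h1 hR1p.le]
  have hle : ∀ x, K.col.Yu x ≤ K.col.M / K.St → K.col.ru x ≤ K.Gf x := by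
    intro x hx
    have h1 := L3_Y K h hr x
    have h2 := mul_nonneg hq.le (sub_nonneg.2 hx)
    linarith
  have hge : ∀ x, K.col.M / K.St ≤ K.col.Yu x → K.Gf x ≤ K.col.ru x := by
    intro x hx
    have h1 := L3_Y K h hr x
    have h2 := mul_nonneg hq.le (sub_nonneg.2 hx)
    have h3 : K.q * (K.col.M / K.St - K.col.Yu x) = - (K.q * (K.col.Yu x - K.col.M / K.St)) := by ring
    linarith
  have key : ∃ Ws : ℝ, 0 ≤ Ws ∧ ∀ x ∈ Icc 0 z, 2 * Ws * (1 - K.col.ru x / K.Gf x) ≤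
      (K.St - K.col.Xu x) / K.col.ru x - (K.St - K.col.Xu x) * K.col.ru x / K.Gf x ^ 2 := by
    by_cases hA : ∀ x ∈ Icc 0 z, K.col.Yu x ≤ K.col.M / K.St
    · exact ⟨0, le_rfl, fun x hx => L3b_pt (hru x) (hG x hx)
        (Or.inl ⟨hle x (hA x hx), hW0 x hx, hW0 x hx⟩)⟩
    · push Not at hA
      obtain ⟨a, ha, haY⟩ := hA
      set A : Set ℝ := {x | x ∈ Icc 0 z ∧ K.col.M / K.St < K.col.Yu x} with hAd
      have hAne : A.Nonempty := ⟨a, ha, haY⟩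
      have hAb : BddBelow A := ⟨0, fun x hx => hx.1.1⟩
      have hs0 : 0 ≤ sInf A := le_csInf hAne fun x hx => hx.1.1
      have hs1 : sInf A ≤ z := (csInf_le hAb ⟨ha, haY⟩).trans ha.2
      refine ⟨(K.St - K.col.Xu (sInf A)) / K.Gf (sInf A), hW0 _ ⟨hs0, hs1⟩, fun x hx => ?_⟩
      refine L3b_pt (hru x) (hG x hx) ?_
      rcases lt_trichotomy x (sInf A) with h1 | h1 | h1
      · have h2 : K.col.Yu x ≤ K.col.M / K.St := by
          by_contra hc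
          push Not at hc
          exact absurd (csInf_le hAb ⟨hx, hc⟩) (not_le.2 h1)
        exact Or.inl ⟨hle x h2, hW0 x hx, hanti x hx _ ⟨hs0, hs1⟩ h1.le⟩
      · rw [← h1]
        rcases le_total (K.col.Yu x) (K.col.M / K.St) with h2 | h2
        · exact Or.inl ⟨hle x h2, hW0 x hx, le_rfl⟩
        · exact Or.inr ⟨hge x h2, hW0 x hx, le_rfl⟩
      · obtain ⟨x0, hx0, hx0x⟩ := exists_lt_of_csInf_lt hAne h1
        have h2 := Yu_qc K h x0 x x2 hx0.1.1 hx0x.le (hx.2.trans hz2) hx2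
        have h3 : K.col.M / K.St < min (K.col.Yu x0) (K.col.Yu x2) := lt_min hx0.2 hY
        exact Or.inr ⟨hge x (h3.trans_le h2).le, hW0 x hx, hanti _ ⟨hs0, hs1⟩ x hx h1.le⟩
  obtain ⟨Ws, hWs, hpt⟩ := key
  have cG : ContinuousOn K.Gf (Icc 0 z) := (Gf_cont K h).continuousOn
  have cr : ContinuousOn K.col.ru (Icc 0 z) := (K.col.ru_cont h.cu).continuousOn
  have cX : ContinuousOn K.col.Xu (Icc 0 z) := (K.col.Xu_cont h.cl h.cu).continuousOn
  have cτ : ContinuousOn (fun x => K.St - K.col.Xu x) (Icc 0 z) := continuousOn_const.sub cX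
  have c1 : ContinuousOn (fun x => K.col.ru x / K.Gf x) (Icc 0 z) :=
    cr.div cG fun x hx => (hG x hx).ne'
  have c2 : ContinuousOn (fun x => (K.St - K.col.Xu x) / K.col.ru x -
      (K.St - K.col.Xu x) * K.col.ru x / K.Gf x ^ 2) (Icc 0 z) :=
    (cτ.div cr fun x _ => (hru x).ne').sub ((cτ.mul cr).div (cG.pow 2)
      fun x hx => pow_ne_zero 2 (hG x hx).ne')
  have i1 : IntervalIntegrable (fun x => K.col.ru x / K.Gf x) volume 0 z :=
    c1.intervalIntegrable_of_Icc hz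
  have i2 := c2.intervalIntegrable_of_Icc (μ := volume) hz
  have i3 : IntervalIntegrable (fun x => 2 * Ws * (1 - K.col.ru x / K.Gf x)) volume 0 z :=
    ((intervalIntegrable_const).sub i1).const_mul _
  have h5 : ∫ x in (0:ℝ)..z, 2 * Ws * (1 - K.col.ru x / K.Gf x) = 2 * Ws * (z - K.r 0) := by
    rw [intervalIntegral.integral_const_mul, intervalIntegral.integral_sub
      intervalIntegrable_const i1, L3_I1 K h hq hr z hz hX]
    simp
  have h6 := intervalIntegral.integral_mono_on hz i3 i2 hpt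
  rw [h5] at h6
  have h7 : 0 ≤ 2 * Ws * (z - K.r 0) := mul_nonneg (by linarith) (by linarith)
  exact h7.trans h6

end Bd

end Pool.Agent.Lib.MP_1dedaf_gt.DK
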