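import Pool.Agent.Lib.MP_1dedaf_gt.DK.TM.F0
import Pool.Agent.Lib.MP_1dedaf_gt.Mg.G045
import Pool.Agent.Lib.MP_1dedaf_gt.DK.TM.L3b

/-!
# TASK TM L3: if `q > 0` and `H_1 = (St, M/St)` is not outside then `St < a`

`η = M/St`. There is `x2 ∈ [0, w]` with `St < Xu x2`, `η < Yu x2`: an upper witness, or for a lower witness `x` take `x2 = w`: `Xu w = Xl w ≥ Xl x > St`, `Yu w ≥ Yl w ≥ Yl x > η` (`Xu_w`, `Xl_strictMono`, `Dat.Yw`, `Bd.Yl_mono`).
`Xu 0 = - q M < 0 < St < Xu x2`, so there is `z ∈ [0, x2]` with `Xu z = St` (intermediate values). `L3_cross` gives `x1 ≤ z` and, with `L3_I2`, `∫_0^z (St - Xu)/ru ≥ ∫_0^{x1} (St - Xl)/rl`.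
`x1 < w`: `Xl x1 = St < Xu x2 ≤ Xu w = Xl w`. `x1 < z`: `Xu x1 = St - q mr x1 < St`, because `mr x1 = ∫_{x1}^w mu > 0` (`mu` is continuous, `≥ 0`, and `mu x1 > 0` since `l x1 = 0 < u x1`: `u x1 ≥ (1 - x1/w) u 0 + (x1/w) u w`, `u w ≥ l w ≥ 0`).
Now `(a - St) N 0 = N 1 - St N 0 = ∫_0^w ((Xl - St)/rl - (Xu - St)/ru)`
`= [∫_0^z (St - Xu)/ru - ∫_0^{x1} (St - Xl)/rl] + ∫_{x1}^z (Xl - St)/rl + ∫_z^w ((Xl - St)/rl - (Xu - St)/ru)`. The first bracket is `≥ 0`. The second integral is `> 0` (`Xl > St` on `(x1, z)`). In the third one `0 ≤ Xu - St ≤ Xl - St` (`Xu = Xl - q mr`, `mr ≥ 0`) and `rl ≤ ru` (`q > 0`, `l ≤ u`),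
so it is `≥ 0`. Hence `(a - St) N 0 > 0`, and `N 0 = q D > 0` (`D_pos`).
-/

set_option autoImplicit false

open MeasureTheory Set Filter Topology

namespace Pool.Agent.Lib.MP_1dedaf_gt.DK

namespace Bd

theorem L3 (K : Bd) (h : K.CF) (hq : 0 < K.q) (hr : 0 < K.r 0) (hu : 0 < K.u 0) (ho : ¬ K.col.Out K.St (K.col.M / K.St)) :
    K.St < K.col.a := by
  have hRg := cReg K h
  have hSp : 0 < K.St := St_pos K h hr
  have hx1w := x1_le K h
  have hwp : 0 < K.w := h.hw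
  have hXl1 : K.col.Xl (K.r 0) = K.St := Xl_t K h hr.le le_rfl
  have hXlm : StrictMono K.col.Xl := K.col.Xl_strictMono h.cl
  have hXum : StrictMono K.col.Xu := K.col.Xu_strictMono h.hq h.cl h.cu
  have hXw : K.col.Xu K.w = K.col.Xl K.w := K.col.Xu_w
  have hMp : 0 < K.col.M := K.col.M_pos hRg
  have hX0 : K.col.Xu 0 = - (K.q * K.col.M) := K.col.Xu_zero
  obtain ⟨x2, hx20, hx2w, hX2, hY2⟩ : ∃ x2, 0 ≤ x2 ∧ x2 ≤ K.w ∧ K.St < K.col.Xu x2 ∧ K.col.M / K.St < K.col.Yu x2 := by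
    unfold Dat.Out at ho
    simp only [not_forall] at ho
    obtain ⟨x, hx, hx'⟩ := ho
    have hxw : x ≤ K.w := hx.2
    by_cases hA : K.St < K.col.Xl x ∧ K.col.M / K.St < K.col.Yl x
    · refine ⟨K.w, hwp.le, le_rfl, ?_, ?_⟩
      · rw [hXw]
        exact hA.1.trans_le (hXlm.monotone hxw)
      · have h1 : K.col.Yl x ≤ K.col.Yl K.w := Yl_mono K h ⟨hx.1, hxw⟩ ⟨hwp.le, le_rfl⟩ hxw
        have h2 : K.col.Yl K.w ≤ K.col.Yu K.w := K.col.Yw hRg
        linarith [hA.2]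
    · by_cases hB : K.St < K.col.Xu x ∧ K.col.M / K.St < K.col.Yu x
      · exact ⟨x, hx.1, hxw, hB.1, hB.2⟩
      · exact absurd ⟨hA, hB⟩ hx'
  have hcXu := K.col.Xu_cont h.cl h.cu
  have hcXl := K.col.Xl_cont h.cl
  have hcrl := K.col.rl_cont h.cl
  have hcru := K.col.ru_cont h.cu
  obtain ⟨z, hz, hXz⟩ : ∃ z ∈ Icc 0 x2, K.col.Xu z = K.St := by
    have h1 := intermediate_value_Icc hx20 hcXu.continuousOn
    have h2 : K.St ∈ Icc (K.col.Xu 0) (K.col.Xu x2) := by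
      refine ⟨?_, hX2.le⟩
      rw [hX0]
      have := mul_pos hq hMp
      linarith
    obtain ⟨z, hz, hz'⟩ := h1 h2
    exact ⟨z, hz, hz'⟩
  have hzw : z ≤ K.w := hz.2.trans hx2w
  obtain ⟨hxz, hcross⟩ := L3_cross K h hq hr z x2 hz.1 hXz hz.2 hx2w hY2
  have hGp := L3_G K h hq hr z hz.1 hXz
  have hI2 := L3_I2 K h hq hr z hz.1 hXz
  have hcE : Continuous fun x => (K.col.Xu x - K.St) / K.col.ru x :=
    (hcXu.sub continuous_const).div hcru fun x => (K.col.ru_pos x).ne'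
  have hcF : Continuous fun x => (K.col.Xl x - K.St) / K.col.rl x :=
    (hcXl.sub continuous_const).div hcrl fun x => (K.col.rl_pos x).ne'
  have hcE' : Continuous fun x => (K.St - K.col.Xu x) / K.col.ru x :=
    (continuous_const.sub hcXu).div hcru fun x => (K.col.ru_pos x).ne'
  have hcG : ContinuousOn (fun x => (K.St - K.col.Xu x) * K.col.ru x / K.Gf x ^ 2) (Icc 0 z) := by
    refine ContinuousOn.div ?_ ?_ ?_
    · exact ((continuous_const.sub hcXu).mul hcru).continuousOn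
    · exact ((Gf_cont K h).pow 2).continuousOn
    · intro x hx
      exact pow_ne_zero 2 (hGp x hx).ne'
  have hA1 : (∫ x in (0:ℝ)..(K.r 0), (K.St - K.col.Xl x) / K.col.rl x) ≤ ∫ x in (0:ℝ)..z, (K.St - K.col.Xu x) / K.col.ru x := by
    rw [intervalIntegral.integral_sub (hcE'.intervalIntegrable _ _)
      (ContinuousOn.intervalIntegrable (by rw [uIcc_of_le hz.1]; exact hcG)), hI2] at hcross
    linarith
  have hA2 : (∫ x in (0:ℝ)..(K.r 0), (K.St - K.col.Xl x) / K.col.rl x) = - ∫ x in (0:ℝ)..(K.r 0), (K.col.Xl x - K.St) / K.col.rl x := by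
    rw [← intervalIntegral.integral_neg]
    refine intervalIntegral.integral_congr fun x _ => ?_
    show _ = - (_ / _)
    ring
  have hA3 : (∫ x in (0:ℝ)..z, (K.St - K.col.Xu x) / K.col.ru x) = - ∫ x in (0:ℝ)..z, (K.col.Xu x - K.St) / K.col.ru x := by
    rw [← intervalIntegral.integral_neg]
    refine intervalIntegral.integral_congr fun x _ => ?_
    show _ = - (_ / _)
    ring
  have hxw' : K.r 0 < K.w := by
    apply hXlm.lt_iff_lt.1
    rw [hXl1, ← hXw]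
    exact hX2.trans_le (hXum.monotone hx2w)
  have hu1 : K.l (K.r 0) < K.u (K.r 0) := by
    obtain ⟨-, -, -, -, hln, -, hlr, -⟩ := cf_facts K h
    have hl1 : K.l (K.r 0) = 0 := l_t K h hr.le le_rfl
    have huw : 0 ≤ K.u K.w := (hln K.w ⟨hwp.le, le_rfl⟩).trans (h.lu K.w ⟨hwp.le, le_rfl⟩)
    have hc1 : 0 < 1 - K.r 0 / K.w := by
      rw [sub_pos, div_lt_one hwp]
      exact hxw'
    have hc2 : 0 ≤ K.r 0 / K.w := div_nonneg hr.le hwp.le
    have hcc := h.vu.2 (⟨le_rfl, hwp.le⟩ : (0:ℝ) ∈ Icc 0 K.w) (⟨hwp.le, le_rfl⟩ : K.w ∈ Icc 0 K.w) hc1.le hc2 (by ring)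
    simp only [smul_eq_mul, mul_zero, zero_add] at hcc
    rw [div_mul_cancel₀ _ hwp.ne'] at hcc
    rw [hl1]
    have := mul_pos hc1 hu
    have := mul_nonneg hc2 huw
    linarith
  have hmr1 : 0 < K.col.mr (K.r 0) := by
    unfold Dat.mr
    refine intervalIntegral.integral_pos hxw' (K.col.mu_cont h.cl h.cu).continuousOn
      (fun x hx => K.col.mu_nonneg hRg x ⟨hr.le.trans hx.1.le, hx.2⟩) ⟨K.r 0, ⟨le_rfl, hxw'.le⟩, ?_⟩
    exact K.col.A1_mu_pos h.hq _ hu1
  have hxz' : K.r 0 < z := by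
    apply hXum.lt_iff_lt.1
    rw [hXz]
    show K.col.Xl (K.r 0) - K.col.q * K.col.mr (K.r 0) < K.St
    rw [hXl1]
    have : 0 < K.col.q * K.col.mr (K.r 0) := mul_pos hq hmr1
    linarith
  have hB : 0 < ∫ x in (K.r 0)..z, (K.col.Xl x - K.St) / K.col.rl x := by
    refine intervalIntegral.integral_pos hxz' hcF.continuousOn (fun x hx => ?_) ⟨z, ⟨hxz'.le, le_rfl⟩, ?_⟩
    · apply div_nonneg _ (K.col.rl_pos x).le
      rw [sub_nonneg, ← hXl1]
      exact hXlm.monotone hx.1.le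
    · apply div_pos _ (K.col.rl_pos z)
      rw [sub_pos, ← hXl1]
      exact hXlm hxz'
  have hC : 0 ≤ ∫ x in z..K.w, ((K.col.Xl x - K.St) / K.col.rl x - (K.col.Xu x - K.St) / K.col.ru x) := by
    refine intervalIntegral.integral_nonneg hzw fun x hx => ?_
    rw [sub_nonneg]
    have hx0 : x ∈ Icc 0 K.w := ⟨hz.1.trans hx.1, hx.2⟩
    have hm := K.col.mr_nonneg hRg x hx0
    have h1 : K.St ≤ K.col.Xu x := by
      rw [← hXz]
      exact hXum.monotone hx.1
    have h2 : K.col.Xu x ≤ K.col.Xl x := by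
      show K.col.Xl x - K.col.q * K.col.mr x ≤ K.col.Xl x
      have : 0 ≤ K.col.q * K.col.mr x := mul_nonneg hq.le hm
      linarith
    have h3 : K.col.rl x ≤ K.col.ru x := by
      unfold Dat.rl Dat.ru
      apply Real.exp_le_exp.2
      have : K.col.q * K.col.l x ≤ K.col.q * K.col.u x := mul_le_mul_of_nonneg_left (h.lu x hx0) hq.le
      linarith
    exact div_le_div₀ (by linarith) (by linarith) (K.col.rl_pos x) h3
  have hN : K.col.N 1 - K.St * K.col.N 0 =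
      ∫ x in (0:ℝ)..K.w, ((K.col.Xl x - K.St) / K.col.rl x - (K.col.Xu x - K.St) / K.col.ru x) := by
    have c1 : Continuous fun x => K.col.Xl x ^ 1 / K.col.rl x - K.col.Xu x ^ 1 / K.col.ru x :=
      ((hcXl.pow 1).div hcrl fun x => (K.col.rl_pos x).ne').sub ((hcXu.pow 1).div hcru fun x => (K.col.ru_pos x).ne')
    have c0 : Continuous fun x => K.St * (K.col.Xl x ^ 0 / K.col.rl x - K.col.Xu x ^ 0 / K.col.ru x) :=
      continuous_const.mul (((hcXl.pow 0).div hcrl fun x => (K.col.rl_pos x).ne').sub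
        ((hcXu.pow 0).div hcru fun x => (K.col.ru_pos x).ne'))
    unfold Dat.N
    rw [← intervalIntegral.integral_const_mul, ← intervalIntegral.integral_sub (c1.intervalIntegrable _ _)
      (c0.intervalIntegrable _ _)]
    refine intervalIntegral.integral_congr fun x _ => ?_
    simp only [pow_one, pow_zero]
    ring
  have hsplit : (∫ x in (0:ℝ)..K.w, ((K.col.Xl x - K.St) / K.col.rl x - (K.col.Xu x - K.St) / K.col.ru x)) =
      ((∫ x in (0:ℝ)..(K.r 0), (K.col.Xl x - K.St) / K.col.rl x) - ∫ x in (0:ℝ)..z, (K.col.Xu x - K.St) / K.col.ru x) +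
      (∫ x in (K.r 0)..z, (K.col.Xl x - K.St) / K.col.rl x) +
      ∫ x in z..K.w, ((K.col.Xl x - K.St) / K.col.rl x - (K.col.Xu x - K.St) / K.col.ru x) := by
    rw [intervalIntegral.integral_sub (hcF.intervalIntegrable _ _) (hcE.intervalIntegrable _ _),
      intervalIntegral.integral_sub (hcF.intervalIntegrable _ _) (hcE.intervalIntegrable _ _),
      ← intervalIntegral.integral_add_adjacent_intervals (hcF.intervalIntegrable 0 z) (hcF.intervalIntegrable z K.w),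
      ← intervalIntegral.integral_add_adjacent_intervals (hcE.intervalIntegrable 0 z) (hcE.intervalIntegrable z K.w),
      ← intervalIntegral.integral_add_adjacent_intervals (hcF.intervalIntegrable 0 (K.r 0)) (hcF.intervalIntegrable (K.r 0) z)]
    ring
  have hpos : 0 < K.col.N 1 - K.St * K.col.N 0 := by
    rw [hN, hsplit]
    rw [hA2, hA3] at hA1
    linarith
  have hN0 : 0 < K.col.N 0 := by
    have h1 := K.col.D_pos hRg
    have h2 : K.col.N 0 = K.col.D * K.col.q := by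
      unfold Dat.D
      rw [div_mul_cancel₀ _ hRg.hq]
    rw [h2]
    exact mul_pos h1 hq
  unfold Dat.a
  rw [lt_div_iff₀ hN0]
  linarith

end Bd

end Pool.Agent.Lib.MP_1dedaf_gt.DK
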