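import Pool.Agent.Lib.MP_1dedaf_gt.DK.TM.F0
import Pool.Agent.Lib.MP_1dedaf_gt.Mg.G045
import Pool.Agent.Lib.MP_1dedaf_gt.Mg.G048

/-!
# TM RG: the lower arc is below the upper arc
-/

set_option autoImplicit false

open MeasureTheory Set Filter Topology

namespace Pool.Agent.Lib.MP_1dedaf_gt.DK

/-- Supporting slope of a concave function. -/
theorem RG_supp (w : ℝ) (f : ℝ → ℝ) (hf : ConcaveOn ℝ (Icc 0 w) f) (x : ℝ) (hx : 0 < x) (hxw : x < w) :
    ∃ k : ℝ, MonotoneOn (fun t => f t - k * t) (Icc 0 x) ∧ AntitoneOn (fun t => f t - k * t) (Icc x w) := by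
  set S : Set ℝ := {s | ∃ a, 0 ≤ a ∧ a < x ∧ s = (f x - f a) / (x - a)} with hS
  have hne : S.Nonempty := ⟨_, 0, le_rfl, hx, rfl⟩
  have hadj : ∀ a b c : ℝ, 0 ≤ a → a < b → b < c → c ≤ w → (f c - f b) / (c - b) ≤ (f b - f a) / (b - a) := by
    intro a b c ha hab hbc hc
    exact hf.slope_anti_adjacent ⟨ha, by linarith⟩ ⟨by linarith, hc⟩ hab hbc
  have hbdd : BddBelow S := by
    refine ⟨(f w - f x) / (w - x), ?_⟩
    rintro s ⟨a, ha, hax, rfl⟩
    exact hadj a x w ha hax hxw le_rfl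
  have hk1 : ∀ a, 0 ≤ a → a < x → sInf S ≤ (f x - f a) / (x - a) := fun a ha hax =>
    csInf_le hbdd ⟨a, ha, hax, rfl⟩
  have hk2 : ∀ b, x < b → b ≤ w → (f b - f x) / (b - x) ≤ sInf S := by
    intro b hxb hb
    refine le_csInf hne ?_
    rintro s ⟨a, ha, hax, rfl⟩
    exact hadj a x b ha hax hxb hb
  refine ⟨sInf S, ?_, ?_⟩
  · intro a ha b hb hab
    rcases hab.eq_or_lt with rfl | hab
    · exact le_rfl
    simp only
    have h1 : sInf S ≤ (f b - f a) / (b - a) := by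
      rcases hb.2.eq_or_lt with rfl | hbx
      · exact hk1 a ha.1 hab
      · exact (hk1 b hb.1 hbx).trans (hadj a b x ha.1 hab hbx hxw.le)
    rw [le_div_iff₀ (by linarith)] at h1
    linarith
  · intro a ha b hb hab
    rcases hab.eq_or_lt with rfl | hab
    · exact le_rfl
    simp only
    have h1 : (f b - f a) / (b - a) ≤ sInf S := by
      rcases ha.1.eq_or_lt with rfl | hxa
      · exact hk2 b hab hb.2
      · exact (hadj x a b hx.le hxa hab hb.2).trans (hk2 a hxa ha.2)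
    rw [div_le_iff₀ (by linarith)] at h1
    linarith

namespace Bd

theorem up_chord (K : Bd) (h : K.CF) (x0 x : ℝ) (h0 : 0 ≤ x0) (h1 : x0 ≤ x) (h2 : x ≤ K.w) :
    (K.col.Xu K.w - K.col.Xu x) * K.col.Yu x0 + (K.col.Xu x - K.col.Xu x0) * K.col.Yu K.w ≤
      (K.col.Xu K.w - K.col.Xu x0) * K.col.Yu x := by
  have hmono := (K.col.Xu_strictMono h.hq h.cl h.cu).monotone
  have a1 := hmono h1
  have a2 := hmono h2
  rcases h2.eq_or_lt with rfl | h2
  · have : (K.col.Xu K.w - K.col.Xu K.w) = 0 := sub_self _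
    rw [this, zero_mul, zero_add]
  rcases h1.eq_or_lt with rfl | h1
  · rw [sub_self, zero_mul, add_zero]
  obtain ⟨k, hm, ha⟩ := RG_supp K.w K.u h.vu x (h0.trans_lt h1) h2
  have e1 := K.col.Yu_slope h.hq h.cl h.cu k x0 x h1.le (hm.mono fun t ht => ⟨h0.trans ht.1, ht.2⟩)
  have e2 := K.col.Yu_slope' h.hq h.cl h.cu k x K.w h2.le ha
  have b1 : 0 ≤ K.col.Xu x - K.col.Xu x0 := by linarith
  have b2 : 0 ≤ K.col.Xu K.w - K.col.Xu x := by linarith
  have e3 := mul_le_mul_of_nonneg_left e1 b2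
  have e4 := mul_le_mul_of_nonneg_left e2 b1
  nlinarith

theorem lo_chord (K : Bd) (h : K.CF) (x0 x : ℝ) (h0 : 0 ≤ x0) (h1 : x0 ≤ x) (h2 : x ≤ K.w) :
    (K.col.Xl K.w - K.col.Xl x0) * K.col.Yl x ≤
      (K.col.Xl K.w - K.col.Xl x) * K.col.Yl x0 + (K.col.Xl x - K.col.Xl x0) * K.col.Yl K.w := by
  have hmono := (K.col.Xl_strictMono h.cl).monotone
  have a1 := hmono h1
  have a2 := hmono h2
  rcases h2.eq_or_lt with rfl | h2
  · have : (K.col.Xl K.w - K.col.Xl K.w) = 0 := sub_self _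
    rw [this, zero_mul, zero_add]
  rcases h1.eq_or_lt with rfl | h1
  · rw [sub_self, zero_mul, add_zero]
  obtain ⟨k, hm, ha⟩ := RG_supp K.w (fun t => - K.l t) h.vl.neg x (h0.trans_lt h1) h2
  have hm' : AntitoneOn (fun t => K.l t - (-k) * t) (Icc 0 x) := by
    intro a haa b hb hab
    have := hm haa hb hab
    simp only at this ⊢
    linarith
  have ha' : MonotoneOn (fun t => K.l t - (-k) * t) (Icc x K.w) := by
    intro a haa b hb hab
    have := ha haa hb hab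
    simp only at this ⊢
    linarith
  have e1 := K.col.Yl_slope' h.hq h.cl (-k) x0 x h1.le (hm'.mono fun t ht => ⟨h0.trans ht.1, ht.2⟩)
  have e2 := K.col.Yl_slope h.hq h.cl (-k) x K.w h2.le ha'
  have b1 : 0 ≤ K.col.Xl x - K.col.Xl x0 := by linarith
  have b2 : 0 ≤ K.col.Xl K.w - K.col.Xl x := by linarith
  have e3 := mul_le_mul_of_nonneg_left e1 b2
  have e4 := mul_le_mul_of_nonneg_left e2 b1
  nlinarith

/-- If the lower arc is below the upper arc at one place, then also to the right of it. -/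
theorem lo_up (K : Bd) (h : K.CF) (x0 y0 : ℝ) (hx0 : x0 ∈ Icc 0 K.w) (hy0 : y0 ∈ Icc 0 K.w)
    (hX : K.col.Xl x0 = K.col.Xu y0) (hY : K.col.Yl x0 ≤ K.col.Yu y0) (x y : ℝ) (hx : x0 ≤ x) (hxw : x ≤ K.w)
    (hyw : y ≤ K.w) (hXY : K.col.Xl x = K.col.Xu y) : K.col.Yl x ≤ K.col.Yu y := by
  have hml := K.col.Xl_strictMono h.cl
  have hmu := K.col.Xu_strictMono h.hq h.cl h.cu
  have hy : y0 ≤ y := by
    rw [← hmu.le_iff_le, ← hX, ← hXY]
    exact hml.monotone hx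
  have e1 := up_chord K h y0 y hy0.1 hy hyw
  have e2 := lo_chord K h x0 x hx0.1 hx hxw
  have hw : K.col.Xu K.w = K.col.Xl K.w := K.col.Xu_w
  have hYw : K.col.Yl K.w ≤ K.col.Yu K.w := K.col.Yw (cReg K h)
  rw [hw, ← hX, ← hXY] at e1
  have a1 := hml.monotone hx
  have a2 := hml.monotone hxw
  rcases (hx.trans hxw).eq_or_lt with h3 | h3
  · have hxe : x = K.w := le_antisymm hxw (h3 ▸ hx)
    have hye : y = K.w := by
      apply hmu.injective
      rw [← hXY, hxe, hw]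
    rw [hxe, hye]
    exact hYw
  · have a3 : K.col.Xl x0 < K.col.Xl K.w := hml h3
    have a4 : 0 < K.col.Xl K.w - K.col.Xl x0 := by linarith
    have e3 := mul_le_mul_of_nonneg_left hY (sub_nonneg.2 a2)
    have e4 := mul_le_mul_of_nonneg_left hYw (sub_nonneg.2 a1)
    have e5 : (K.col.Xl K.w - K.col.Xl x0) * K.col.Yl x ≤ (K.col.Xl K.w - K.col.Xl x0) * K.col.Yu y := by linarith
    exact le_of_mul_le_mul_left e5 a4

theorem ivt_Xl (K : Bd) (h : K.CF) (b X : ℝ) (hb : 0 ≤ b) (h1 : 0 ≤ X) (h2 : X ≤ K.col.Xl b) :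
    ∃ x ∈ Icc 0 b, K.col.Xl x = X := by
  have := intermediate_value_Icc hb (K.col.Xl_cont h.cl).continuousOn
  exact this ⟨by rw [K.col.Xl_zero]; exact h1, h2⟩

theorem ivt_Xu (K : Bd) (h : K.CF) (b X : ℝ) (hb : 0 ≤ b) (h1 : - (K.q * K.col.M) ≤ X) (h2 : X ≤ K.col.Xu b) :
    ∃ x ∈ Icc 0 b, K.col.Xu x = X := by
  have := intermediate_value_Icc hb (K.col.Xu_cont h.cl h.cu).continuousOn
  refine this ⟨?_, h2⟩
  rw [K.col.Xu_zero]
  exact h1

theorem R1 (K : Bd) (h : K.CF) (hr : 0 < K.r 0) (hS : 0 ≤ K.St + K.q * K.col.M) (hT : 0 ≤ K.Ss + K.p * K.col.M) (ξ η : ℝ) :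
    K.col.REG ξ η := by
  have hM := K.col.M_pos (cReg K h)
  have hmu := K.col.Xu_strictMono h.hq h.cl h.cu
  have hml := K.col.Xl_strictMono h.cl
  intro x hx x' hx' hXX
  left
  have hxw : x ≤ K.w := hx.2
  have hxw' : x' ≤ K.w := hx'.2
  have hYl0 : K.col.Yl 0 = - (K.p * K.col.M) := Yl_t K h le_rfl hr.le
  rcases lt_or_gt_of_ne h.hq with hq | hq
  · have hqM : 0 ≤ - (K.q * K.col.M) := by
      have := mul_pos_of_neg_of_neg hq (neg_neg_of_pos hM)
      linarith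
    obtain ⟨x0, hx0, hX0⟩ := ivt_Xl K h (K.r 0) (- (K.q * K.col.M)) hr.le hqM (by
      rw [Xl_t K h hr.le le_rfl]
      have : K.St = ee K.p (K.r 0) := rfl
      linarith)
    have hY0 : K.col.Yl x0 ≤ K.col.Yu 0 := by
      rw [Yl_t K h hx0.1 hx0.2, Yu_0 K h]
      linarith
    refine lo_up K h x0 0 ⟨hx0.1, hx0.2.trans (x1_le K h)⟩ ⟨le_rfl, h.hw.le⟩ ?_ hY0 x x' ?_ hxw hxw' hXX
    · rw [hX0, K.col.Xu_zero]
      rfl
    · rw [← hml.le_iff_le, hX0, hXX]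
      have := hmu.monotone hx'.1
      rw [K.col.Xu_zero] at this
      exact this
  · have hqM : 0 ≤ K.q * K.col.M := (mul_pos hq hM).le
    obtain ⟨y0, hy0, hXy0⟩ := ivt_Xu K h K.w 0 h.hw.le (by linarith) (by
      have h1 : K.col.Xu K.w = K.col.Xl K.w := K.col.Xu_w
      rw [h1, ← K.col.Xl_zero]
      exact hml.monotone h.hw.le)
    refine lo_up K h 0 y0 ⟨le_rfl, h.hw.le⟩ hy0 ?_ ?_ x x' hx.1 hxw hxw' hXX
    · rw [hXy0, K.col.Xl_zero]
    · have h1 := Yu_qc K h 0 y0 K.w le_rfl hy0.1 hy0.2 le_rfl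
      refine le_trans ?_ h1
      rw [Yu_0 K h, hYl0]
      apply le_min
      · linarith
      · have h2 : K.col.Yl 0 ≤ K.col.Yl K.w := Yl_mono K h ⟨le_rfl, h.hw.le⟩ ⟨h.hw.le, le_rfl⟩ h.hw.le
        have h3 : K.col.Yl K.w ≤ K.col.Yu K.w := K.col.Yw (cReg K h)
        linarith

theorem R2 (K : Bd) (h : K.CF) (hp : 0 < K.p) (hq : K.q < 0) (hr : 0 < K.r 0) (hu : 0 < K.u 0) (hc : K.u (K.r 0) < K.u 0) (ξ η : ℝ) :
    K.col.REG ξ η := by
  have hM := K.col.M_pos (cReg K h)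
  have hmu := K.col.Xu_strictMono h.hq h.cl h.cu
  have hml := K.col.Xl_strictMono h.cl
  intro x hx x' hx' hXX
  left
  have hxw : x ≤ K.w := hx.2
  have hxw' : x' ≤ K.w := hx'.2
  have hqM : 0 ≤ - (K.q * K.col.M) := by
    have := mul_pos_of_neg_of_neg hq (neg_neg_of_pos hM)
    linarith
  have h0w : K.col.Xu 0 ≤ K.col.Xu K.w := hmu.monotone h.hw.le
  have hww : K.col.Xu K.w = K.col.Xl K.w := K.col.Xu_w
  have hX00 : K.col.Xu 0 = - (K.q * K.col.M) := K.col.Xu_zero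
  obtain ⟨x0, hx0, hX0⟩ := ivt_Xl K h K.w (- (K.q * K.col.M)) h.hw.le hqM (by rw [← hww, ← hX00]; exact h0w)
  have hSs := Ss_pos K h hu
  have hY0 : K.col.Yl x0 ≤ K.col.Yu 0 := by
    rw [Yu_0 K h]
    rcases le_total x0 (K.r 0) with h1 | h1
    · rw [Yl_t K h hx0.1 h1]
      have := mul_pos hp hM
      linarith
    · have h2 := (Y_right K h hr hc x0 ⟨h1, hx0.2⟩).2.2.2
      have h3 := Yu_x1_le' K h hp hr hc.le
      have h4 := (ee_mono K.q h.hq).monotone hc.le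
      exact h2.trans (h3.trans h4)
  refine lo_up K h x0 0 hx0 ⟨le_rfl, h.hw.le⟩ ?_ hY0 x x' ?_ hxw hxw' hXX
  · rw [hX0, hX00]
  · rw [← hml.le_iff_le, hX0, hXX, ← hX00]
    exact hmu.monotone hx'.1

theorem R3 (K : Bd) (h : K.CF) (hq : 0 < K.q) (hr : 0 < K.r 0) (hc : K.u (K.r 0) < K.u 0) :
    K.col.REG K.St (K.col.M / K.St) := by
  have hM := K.col.M_pos (cReg K h)
  have hSt := St_pos K h hr
  have hmu := K.col.Xu_strictMono h.hq h.cl h.cu
  have hml := K.col.Xl_strictMono h.cl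
  have hx1 := x1_le K h
  have hXl : K.col.Xl (K.r 0) = K.St := Xl_t K h hr.le le_rfl
  intro x hx x' hx' hXX
  have hxw : x ≤ K.w := hx.2
  have hxw' : x' ≤ K.w := hx'.2
  rcases le_total (K.col.Xl x) K.St with h1 | h1
  · right
    refine ⟨?_, h1⟩
    have h2 : x ≤ K.r 0 := by
      rw [← hml.le_iff_le, hXl]
      exact h1
    rw [Yl_t K h hx.1 h2, le_div_iff₀ hSt]
    have h3 := exp_ee K.p (K.r 0) h.hp
    have h4 : K.St = ee K.p (K.r 0) := rfl
    rw [← h4] at h3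
    have h5 := mul_pos (Real.exp_pos (K.p * K.r 0)) hM
    rw [h3] at h5
    linarith
  · left
    have h2 : K.r 0 ≤ x := by
      rw [← hml.le_iff_le, hXl]
      exact h1
    have h3 : K.r 0 ≤ x' := by
      rw [← hmu.le_iff_le, ← hXX]
      refine le_trans ?_ h1
      have hmr := K.col.mr_nonneg (cReg K h) (K.r 0) ⟨hr.le, hx1⟩
      unfold Dat.Xu
      rw [hXl]
      have : 0 ≤ K.col.q * K.col.mr (K.r 0) := mul_nonneg hq.le hmr
      linarith
    have h4 := Y_right K h hr hc x ⟨h2, hxw⟩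
    have h5 := Y_right K h hr hc x' ⟨h3, hxw'⟩
    exact h4.2.2.1.trans h5.1

end Bd

end Pool.Agent.Lib.MP_1dedaf_gt.DK
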