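import Pool.Agent.Lib.MP_1dedaf_gt.DK.TM.F0
import Pool.Agent.Lib.MP_1dedaf_gt.Mg.G045
import Pool.Agent.Lib.MP_1dedaf_gt.DK.TM.L3
import Pool.Agent.Lib.MP_1dedaf_gt.Mg.G046
import Pool.Agent.Lib.MP_1dedaf_gt.DK.TM.RG
import Pool.Agent.Lib.MP_1dedaf_gt.Mg.G048
import Pool.Agent.Lib.MP_1dedaf_gt.DK.TN.B5
import Pool.Agent.Lib.MP_1dedaf_gt.DK.TN.A5
import Pool.Agent.Lib.MP_1dedaf_gt.Mg.G006

/-!
# TM Fin: the inequality for terminal positions
-/

set_option autoImplicit false

open MeasureTheory Set Filter Topology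

namespace Pool.Agent.Lib.MP_1dedaf_gt.DK

namespace Bd

theorem Fin_swapCF (K : Bd) (h : K.CF) : K.swap.CF := by
  obtain ⟨-, -, -, -, -, -, -, -, -, -, -, -, hs⟩ := cf_facts K h
  exact hs

theorem Fin_rReg (K : Bd) (h : K.CF) : K.row.Reg := by
  obtain ⟨-, -, -, -, -, -, -, -, -, -, -, hs, -⟩ := cf_facts K h
  exact hs

/-- The set of facts about the pivot. -/
theorem Fin_piv (K : Bd) (h : K.CF) : 0 < K.col.a ∧ 0 < K.col.b ∧ - (K.q * K.col.M) < K.col.a ∧ - (K.p * K.col.M) < K.col.b ∧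
    K.p * K.col.a + K.q * K.col.b = K.col.M / K.col.D - 1 - K.p * K.q * K.col.M := by
  have hc := cReg K h
  have hr := Fin_rReg K h
  obtain ⟨e1, e2⟩ := pivot_symm K h
  have hM : K.row.M = K.col.M := row_M K h.toOk
  refine ⟨Dat.a_pos _ hc, ?_, Dat.a_gt _ hc, ?_, ?_⟩
  · rw [← e1]
    exact Dat.a_pos _ hr
  · have := Dat.a_gt _ hr
    rw [e1, hM] at this
    exact this
  · have hq := h.hq
    have : K.col.b = (K.col.M / K.col.D - 1 - K.p * K.col.a - K.p * K.q * K.col.M) / K.q := rfl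
    rw [this]
    field_simp
    ring

theorem Fin_H1 (K : Bd) (h : K.CF) (hr : 0 < K.r 0)
    (hA : 0 ≤ (K.col.a - K.St) * (K.col.b * K.St - K.col.M)) (ho : K.col.Out K.St (K.col.M / K.St))
    (hg : K.col.REG K.St (K.col.M / K.St)) (hS : 0 < K.St + K.q * K.col.M) : 0 ≤ K.col.J := by
  have hSt := St_pos K h hr
  have hM := K.col.M_pos (cReg K h)
  have hD := K.col.D_pos (cReg K h)
  have h1 : 0 < 1 + K.p * K.St := by
    have e := exp_ee K.p (K.r 0) h.hp
    have e2 : K.St = ee K.p (K.r 0) := rfl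
    rw [e2, ← e]
    exact Real.exp_pos _
  have h2 : 0 < 1 + K.q * (K.col.M / K.St) := by
    have : 1 + K.q * (K.col.M / K.St) = (K.St + K.q * K.col.M) / K.St := by
      field_simp
    rw [this]
    exact div_pos hS hSt
  have hB := CStar K h K.St (K.col.M / K.St) hSt (div_pos hM hSt) (mul_div_cancel₀ _ hSt.ne') h1 h2 ho hg
    (fun _ => Or.inr hS.le)
  have hBr : K.col.Br K.St (K.col.M / K.St) = K.col.J - K.col.D * (K.col.a - K.St) * (K.col.b - K.col.M / K.St) := rfl
  rw [hBr] at hB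
  have h3 : K.col.D * (K.col.a - K.St) * (K.col.b - K.col.M / K.St) =
      K.col.D * ((K.col.a - K.St) * (K.col.b * K.St - K.col.M)) / K.St := by
    field_simp
  have h4 : 0 ≤ K.col.D * ((K.col.a - K.St) * (K.col.b * K.St - K.col.M)) / K.St := by positivity
  linarith

theorem Fin_H2 (K : Bd) (h : K.CF) (hu : 0 < K.u 0)
    (hB : 0 ≤ (K.col.b - K.Ss) * (K.col.a * K.Ss - K.col.M)) (ho : K.col.Out (K.col.M / K.Ss) K.Ss)
    (hg : K.col.REG (K.col.M / K.Ss) K.Ss) (hS : 0 < K.Ss + K.p * K.col.M) : 0 ≤ K.col.J := by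
  have hSs := Ss_pos K h hu
  have hM := K.col.M_pos (cReg K h)
  have hD := K.col.D_pos (cReg K h)
  have h2 : 0 < 1 + K.q * K.Ss := by
    have e := exp_ee K.q (K.u 0) h.hq
    have e2 : K.Ss = ee K.q (K.u 0) := rfl
    rw [e2, ← e]
    exact Real.exp_pos _
  have h1 : 0 < 1 + K.p * (K.col.M / K.Ss) := by
    have : 1 + K.p * (K.col.M / K.Ss) = (K.Ss + K.p * K.col.M) / K.Ss := by
      field_simp
    rw [this]
    exact div_pos hS hSs
  have hC := CStar K h (K.col.M / K.Ss) K.Ss (div_pos hM hSs) hSs (div_mul_cancel₀ _ hSs.ne') h1 h2 ho hg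
    (fun _ => Or.inl le_rfl)
  have hBr : K.col.Br (K.col.M / K.Ss) K.Ss = K.col.J - K.col.D * (K.col.a - K.col.M / K.Ss) * (K.col.b - K.Ss) := rfl
  rw [hBr] at hC
  have h3 : K.col.D * (K.col.a - K.col.M / K.Ss) * (K.col.b - K.Ss) =
      K.col.D * ((K.col.b - K.Ss) * (K.col.a * K.Ss - K.col.M)) / K.Ss := by
    field_simp
  have h4 : 0 ≤ K.col.D * ((K.col.b - K.Ss) * (K.col.a * K.Ss - K.col.M)) / K.Ss := by positivity
  linarith

theorem Fin_mem_swap (K : Bd) (h : K.CF) (x y : ℝ) : K.swap.mem y x ↔ K.mem x y := (h.iff x y).symm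

theorem Fin_notmem (K : Bd) (h : K.CF) (hr : 0 < K.r 0) (hu : 0 < K.u 0) (hm : ¬ K.mem (K.r 0) (K.u 0)) :
    K.u (K.r 0) < K.u 0 := by
  by_contra hcon
  push Not at hcon
  refine hm ⟨hr.le, x1_le K h, ?_, hcon⟩
  rw [l_t K h hr.le le_rfl]
  exact hu.le

/-- `H_2` is outside if `H_1` of the reflected body is outside. -/
theorem Fin_out (K : Bd) (h : K.CF) (ho : K.swap.col.Out K.swap.St (K.swap.col.M / K.swap.St)) :
    K.col.Out (K.col.M / K.Ss) K.Ss := by
  apply out_symm K h
  have hM : K.swap.col.M = K.col.M := row_M K h.toOk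
  have hS : K.swap.St = K.Ss := rfl
  rw [hM, hS] at ho
  exact ho

theorem Fin_geo (K : Bd) (h : K.CF) (n g n' g' : ℝ) (hn : 0 < n) (hn' : 0 < n') (hg : 0 < g) (hg' : 0 < g')
    (hz : K.mem (K.r 0 - n) (K.u 0 + g)) (hw : K.mem (K.r 0 + g') (K.u 0 - n')) (hp : K.p < 0) (hq : K.q < 0)
    (h1 : - K.p * n < - K.q * g) (h2 : - K.q * n' < - K.p * g') : K.u 0 ≤ K.u (K.r 0) := by
  obtain ⟨z1, z2, z3, z4⟩ := hz
  obtain ⟨w1, w2, w3, w4⟩ := hw
  have hs : 0 < n + g' := by linarith
  have hc := h.vu.2 (⟨z1, z2⟩ : K.r 0 - n ∈ Icc 0 K.w) (⟨w1, w2⟩ : K.r 0 + g' ∈ Icc 0 K.w)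
    (show (0:ℝ) ≤ g' / (n + g') by positivity) (show (0:ℝ) ≤ n / (n + g') by positivity)
    (by field_simp; ring)
  simp only [smul_eq_mul] at hc
  have e1 : g' / (n + g') * (K.r 0 - n) + n / (n + g') * (K.r 0 + g') = K.r 0 := by
    field_simp
    ring
  rw [e1] at hc
  have h3 : n * n' < g * g' := by
    have hP : 0 < - K.p := by linarith
    have hQ : 0 < - K.q := by linarith
    have h4 : (- K.p * n) * (- K.q * n') < (- K.q * g) * (- K.p * g') :=
      mul_lt_mul'' h1 h2 (by positivity) (by positivity)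
    have h5 : (- K.p * - K.q) * (n * n') < (- K.p * - K.q) * (g * g') := by linarith
    exact lt_of_mul_lt_mul_left h5 (by positivity)
  have h6 : g' / (n + g') * (K.u 0 + g) + n / (n + g') * (K.u 0 - n') ≤
      g' / (n + g') * K.u (K.r 0 - n) + n / (n + g') * K.u (K.r 0 + g') := by
    have a1 : g' / (n + g') * (K.u 0 + g) ≤ g' / (n + g') * K.u (K.r 0 - n) :=
      mul_le_mul_of_nonneg_left z4 (by positivity)
    have a2 : n / (n + g') * (K.u 0 - n') ≤ n / (n + g') * K.u (K.r 0 + g') :=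
      mul_le_mul_of_nonneg_left w4 (by positivity)
    linarith
  have h7 : K.u 0 ≤ g' / (n + g') * (K.u 0 + g) + n / (n + g') * (K.u 0 - n') := by
    have e2 : g' / (n + g') * (K.u 0 + g) + n / (n + g') * (K.u 0 - n') = K.u 0 + (g * g' - n * n') / (n + g') := by
      field_simp
      ring
    rw [e2]
    have : 0 < (g * g' - n * n') / (n + g') := div_pos (by linarith) hs
    linarith
  linarith

/-- Bodies which do not contain `(x1, y1)`. -/
theorem Fin_A (K : Bd) (h : K.CF) (hr : 0 < K.r 0) (hu : 0 < K.u 0) (hm : ¬ K.mem (K.r 0) (K.u 0))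
    (hA : 0 ≤ (K.col.a - K.St) * (K.col.b * K.St - K.col.M)) (hB : 0 ≤ (K.col.b - K.Ss) * (K.col.a * K.Ss - K.col.M)) :
    0 ≤ K.col.J := by
  have hs := Fin_swapCF K h
  have hSt := St_pos K h hr
  have hSs := Ss_pos K h hu
  have hM := K.col.M_pos (cReg K h)
  have hD := K.col.D_pos (cReg K h)
  have hc := Fin_notmem K h hr hu hm
  have hrs : 0 < K.swap.r 0 := hu
  have hus : 0 < K.swap.u 0 := hr
  have hcs : K.swap.u (K.swap.r 0) < K.swap.u 0 := by
    apply Fin_notmem K.swap hs hrs hus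
    intro hcon
    exact hm ((Fin_mem_swap K h _ _).1 hcon)
  obtain ⟨ha, hb, haq, hbp, hpiv⟩ := Fin_piv K h
  rcases lt_or_gt_of_ne h.hq with hq | hq
  · rcases lt_or_gt_of_ne h.hp with hp | hp
    · -- both negative
      have hMD : 0 < K.col.M / K.col.D := div_pos hM hD
      have hS1 : 0 < K.St + K.q * K.col.M := by
        by_contra hcon
        push Not at hcon
        have h1 : 0 < K.col.a - K.St := by linarith
        have h2 : 0 ≤ K.col.b * K.St - K.col.M := nonneg_of_mul_nonneg_right hA h1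
        have h3 : K.p * (K.col.a + K.q * K.col.M) < 0 := mul_neg_of_neg_of_pos hp (by linarith)
        have h4 : - K.q * K.col.b < 1 := by nlinarith
        have h5 : K.col.b * K.St ≤ K.col.b * (- (K.q * K.col.M)) := mul_le_mul_of_nonneg_left (by linarith) hb.le
        have h6 : K.col.M * 1 ≤ K.col.M * (- K.q * K.col.b) := by nlinarith
        have := le_of_mul_le_mul_left h6 hM
        linarith
      have hS2 : 0 < K.Ss + K.p * K.col.M := by
        by_contra hcon
        push Not at hcon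
        have h1 : 0 < K.col.b - K.Ss := by linarith
        have h2 : 0 ≤ K.col.a * K.Ss - K.col.M := nonneg_of_mul_nonneg_right hB h1
        have h3 : K.q * (K.col.b + K.p * K.col.M) < 0 := mul_neg_of_neg_of_pos hq (by linarith)
        have h4 : - K.p * K.col.a < 1 := by nlinarith
        have h5 : K.col.a * K.Ss ≤ K.col.a * (- (K.p * K.col.M)) := mul_le_mul_of_nonneg_left (by linarith) ha.le
        have h6 : K.col.M * 1 ≤ K.col.M * (- K.p * K.col.a) := by nlinarith
        have := le_of_mul_le_mul_left h6 hM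
        linarith
      have hreg := R1 K h hr hS1.le hS2.le
      by_cases ho1 : K.col.Out K.St (K.col.M / K.St)
      · exact Fin_H1 K h hr hA ho1 (hreg _ _) hS1
      by_cases ho2 : K.swap.col.Out K.swap.St (K.swap.col.M / K.swap.St)
      · exact Fin_H2 K h hu hB (Fin_out K h ho2) (hreg _ _) hS2
      exfalso
      obtain ⟨n, g, hn, -, hg, hz, hpq⟩ := L2 K h hp hq hr hu hc ho1
      obtain ⟨n', g', hn', -, hg', hz', hpq'⟩ := L2 K.swap hs hq hp hrs hus hcs ho2
      have hw : K.mem (K.r 0 + g') (K.u 0 - n') := (Fin_mem_swap K h _ _).1 hz'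
      have := Fin_geo K h n g n' g' hn hn' hg hg' hz hw hp hq hpq hpq'
      linarith
    · -- `p > 0 > q`
      have ho2 : K.swap.col.Out K.swap.St (K.swap.col.M / K.swap.St) := L1 K.swap hs hp hrs hcs
      refine Fin_H2 K h hu hB (Fin_out K h ho2) (R2 K h hp hq hr hu hc _ _) ?_
      have := mul_pos hp hM
      linarith
  · refine Fin_H1 K h hr hA (L1 K h hq hr hc) (R3 K h hq hr hc) ?_
    have := mul_pos hq hM
    linarith

/-- If all rows have the same length, or all columns, then `w = x1`. -/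
theorem Fin_rect (K : Bd) (h : K.CF) (hu : 0 < K.u 0) (hrow : ∀ y ∈ Icc 0 K.h, K.r y - K.g y = K.r 0) : K.w ≤ K.r 0 := by
  obtain ⟨hl0, hg0, -, -, hl, hg, -, -, -, huh, -, -, hs⟩ := cf_facts K h
  have hgt : ∀ y, 0 ≤ y → y ≤ K.u 0 → K.g y = 0 := fun y h1 h2 => l_t K.swap hs h1 h2
  have h1 : K.r (K.u 0) = K.r 0 := by
    have := hrow (K.u 0) ⟨hu.le, huh⟩
    rw [hgt _ hu.le le_rfl] at this
    linarith
  have hle : ∀ y ∈ Icc 0 K.h, K.r y ≤ K.r 0 := by
    intro y hy
    rcases le_or_gt y (K.u 0) with h2 | h2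
    · have := hrow y hy
      rw [hgt y hy.1 h2] at this
      linarith
    · have h3 := h.vr.slope_anti_adjacent (x := 0) (y := K.u 0) (z := y) ⟨le_rfl, h.hh.le⟩ hy hu h2
      rw [h1, sub_self, zero_div, div_le_iff₀ (by linarith)] at h3
      linarith
  have hm : K.mem K.w (K.l K.w) := ⟨h.hw.le, le_rfl, le_rfl, h.lu _ ⟨h.hw.le, le_rfl⟩⟩
  obtain ⟨m1, m2, m3, m4⟩ := (h.iff _ _).1 hm
  exact m4.trans (hle _ ⟨m1, m2⟩)

theorem Fin_rect' (K : Bd) (h : K.CF) (hr : 0 < K.r 0) (hcol : ∀ x ∈ Icc 0 K.w, K.u x - K.l x = K.u 0) : K.w ≤ K.r 0 := by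
  obtain ⟨hl0, hg0, -, -, hl, hg, -, -, -, -, -, -, hs⟩ := cf_facts K h
  have hx1 := x1_le K h
  have h1 : K.u (K.r 0) = K.u 0 := by
    have := hcol (K.r 0) ⟨hr.le, hx1⟩
    rw [l_t K h hr.le le_rfl] at this
    linarith
  rcases hx1.eq_or_lt with h2 | h2
  · exact h2.ge
  have h3 := h.vu.slope_anti_adjacent (x := 0) (y := K.r 0) (z := K.w) ⟨le_rfl, h.hw.le⟩ ⟨h.hw.le, le_rfl⟩ hr h2
  rw [h1, sub_self, zero_div, div_le_iff₀ (by linarith)] at h3
  have h4 := hcol K.w ⟨h.hw.le, le_rfl⟩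
  have h5 := hl K.w ⟨h.hw.le, le_rfl⟩
  have h6 : K.l K.w = 0 := by linarith
  have hm : K.mem K.w 0 := ⟨h.hw.le, le_rfl, h6.le, by
    have := h.lu K.w ⟨h.hw.le, le_rfl⟩
    linarith⟩
  obtain ⟨m1, m2, m3, m4⟩ := (h.iff _ _).1 hm
  exact m4

theorem Fin_outw (K : Bd) (h : K.CF) (hr : 0 < K.r 0) (hw : K.w ≤ K.r 0) (η : ℝ) : K.col.Out K.St η := by
  have hwe : K.w = K.r 0 := le_antisymm hw (x1_le K h)
  have hXl : K.col.Xl K.w = K.St := by
    rw [hwe]
    exact Xl_t K h hr.le le_rfl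
  have hXu : K.col.Xu K.w = K.St := by
    have : K.col.Xu K.w = K.col.Xl K.w := K.col.Xu_w
    rw [this, hXl]
  intro x hx
  have hxw : x ≤ K.w := hx.2
  have h1 := (K.col.Xl_strictMono h.cl).monotone hxw
  have h2 := (K.col.Xu_strictMono h.hq h.cl h.cu).monotone hxw
  constructor
  · rintro ⟨h3, -⟩
    linarith
  · rintro ⟨h3, -⟩
    linarith

/-- The case `w = x1` in which all is on the left of `St`. -/
theorem Fin_box (K : Bd) (h : K.CF) (hr : 0 < K.r 0) (hw : K.w ≤ K.r 0)
    (hA : 0 ≤ (K.col.a - K.St) * (K.col.b * K.St - K.col.M)) : 0 ≤ K.col.J := by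
  have hSt := St_pos K h hr
  have hM := K.col.M_pos (cReg K h)
  have hwe : K.w = K.r 0 := le_antisymm hw (x1_le K h)
  refine Fin_H1 K h hr hA (Fin_outw K h hr hw _) ?_ ?_
  · intro x hx x' hx' hXX
    have hxw : x ≤ K.w := hx.2
    right
    constructor
    · rw [Yl_t K h hx.1 (hxw.trans hw), le_div_iff₀ hSt]
      have h3 := exp_ee K.p (K.r 0) h.hp
      have h4 : K.St = ee K.p (K.r 0) := rfl
      rw [← h4] at h3
      have h5 := mul_pos (Real.exp_pos (K.p * K.r 0)) hM
      rw [h3] at h5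
      linarith
    · have h1 := (K.col.Xl_strictMono h.cl).monotone (hxw.trans hw)
      rw [Xl_t K h hr.le le_rfl] at h1
      exact h1
  · rcases lt_or_gt_of_ne h.hq with hq | hq
    · have hsp := M_split K h hr.le le_rfl
      have hmr : K.col.mr (K.r 0) = 0 := by
        rw [← hwe]
        exact K.col.mr_w
      rw [hmr, add_zero] at hsp
      have hce : Continuous (ee K.q) := by unfold ee; fun_prop
      have h1 : K.col.M ≤ K.St * ee K.q K.h := by
        have e : K.St * ee K.q K.h = ∫ t in (0:ℝ)..(K.r 0), Real.exp (K.p * t) * ee K.q K.h := by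
          rw [intervalIntegral.integral_mul_const, ee_int K.p _ h.hp]
          rfl
        rw [e, hsp]
        refine intervalIntegral.integral_mono_on hr.le ?_ ?_ fun t ht => ?_
        · exact ((by fun_prop : Continuous fun t : ℝ => Real.exp (K.p * t)).mul (hce.comp h.cu)).intervalIntegrable _ _
        · exact (by fun_prop : Continuous fun t : ℝ => Real.exp (K.p * t) * ee K.q K.h).intervalIntegrable _ _
        · refine mul_le_mul_of_nonneg_left ?_ (Real.exp_pos _).le
          apply (ee_mono K.q h.hq).monotone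
          have htw : t ≤ K.w := ht.2.trans hwe.ge
          have hm : K.mem t (K.u t) := ⟨ht.1, htw, h.lu _ ⟨ht.1, htw⟩, le_rfl⟩
          exact ((h.iff _ _).1 hm).2.1
      have h2 : - K.q * ee K.q K.h = 1 - Real.exp (K.q * K.h) := by
        have := exp_ee K.q K.h h.hq
        linarith
      have h3 : - K.q * K.col.M ≤ K.St * (1 - Real.exp (K.q * K.h)) := by
        rw [← h2]
        nlinarith
      have h4 := mul_pos hSt (Real.exp_pos (K.q * K.h))
      linarith
    · have := mul_pos hq hM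
      linarith

theorem Fin_BB (K : Bd) (h : K.CF) (hr : 0 < K.r 0) (hu : 0 < K.u 0) (hm : K.mem (K.r 0) (K.u 0))
    (hA : 0 ≤ (K.col.a - K.St) * (K.col.b * K.St - K.col.M)) (hB : 0 ≤ (K.col.b - K.Ss) * (K.col.a * K.Ss - K.col.M))
    (ha1 : K.col.a ≤ K.St) (hb1 : K.col.b ≤ K.Ss) : 0 ≤ K.col.J := by
  have hs := Fin_swapCF K h
  have hSt := St_pos K h hr
  have hSs := Ss_pos K h hu
  have hM := K.col.M_pos (cReg K h)
  have hrs : 0 < K.swap.r 0 := hu
  have hus : 0 < K.swap.u 0 := hr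
  obtain ⟨ha, hb, haq, hbp, hpiv⟩ := Fin_piv K h
  have hS1 : 0 < K.St + K.q * K.col.M := by linarith
  have hS2 : 0 < K.Ss + K.p * K.col.M := by linarith
  have hreg := R1 K h hr hS1.le hS2.le
  by_cases ho1 : K.col.Out K.St (K.col.M / K.St)
  · exact Fin_H1 K h hr hA ho1 (hreg _ _) hS1
  by_cases ho2 : K.swap.col.Out K.swap.St (K.swap.col.M / K.swap.St)
  · exact Fin_H2 K h hu hB (Fin_out K h ho2) (hreg _ _) hS2
  exfalso
  rcases lt_or_gt_of_ne h.hq with hq | hq
  · rcases lt_or_gt_of_ne h.hp with hp | hp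
    · have hw : K.r 0 < K.w := by
        by_contra hcon
        push Not at hcon
        exact ho1 (Fin_outw K h hr hcon _)
      have h1 := BX_lt K h hp hq hr hu hm hw
      have h2 : K.col.a / K.St ≤ 1 := (div_le_one hSt).2 ha1
      have h3 : K.col.b / K.Ss ≤ 1 := (div_le_one hSs).2 hb1
      linarith
    · have h1 : K.swap.St < K.swap.col.a := L3 K.swap hs hp hrs hus ho2
      have h2 : K.swap.col.a = K.col.b := (pivot_symm K h).1
      have h3 : K.swap.St = K.Ss := rfl
      rw [h2, h3] at h1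
      linarith
  · have h1 := L3 K h hq hr hu ho1
    linarith

theorem Fin_AA (K : Bd) (h : K.CF) (hr : 0 < K.r 0) (hu : 0 < K.u 0) (hm : K.mem (K.r 0) (K.u 0))
    (hA : 0 ≤ (K.col.a - K.St) * (K.col.b * K.St - K.col.M)) (hb1 : K.col.M ≤ K.col.b * K.St)
    (ha1 : K.col.M ≤ K.col.a * K.Ss) : 0 ≤ K.col.J := by
  have hs := Fin_swapCF K h
  rcases area0 K h hm with har | har
  · by_cases hall : ∀ y ∈ Icc 0 K.h, K.r y - K.g y = K.r 0
    · exact Fin_box K h hr (Fin_rect K h hu hall) hA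
    · push Not at hall
      exfalso
      have h1 := Dat.P2 K.row (Fin_rReg K h) h.vg h.vr (by
        obtain ⟨-, hg0, -⟩ := cf_facts K h
        exact hg0) hr har hall
      have h2 : K.row.a = K.col.b := (pivot_symm K h).1
      have h3 : K.row.M = K.col.M := row_M K h.toOk
      rw [h2, h3] at h1
      have h4 : K.col.b * K.St < K.col.M := h1
      linarith
  · by_cases hall : ∀ x ∈ Icc 0 K.w, K.u x - K.l x = K.u 0
    · exact Fin_box K h hr (Fin_rect' K h hr hall) hA
    · push Not at hall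
      exfalso
      have h1 := Dat.P2 K.col (cReg K h) h.vl h.vu (by
        obtain ⟨hl0, -⟩ := cf_facts K h
        exact hl0) hu har hall
      have h4 : K.col.a * K.Ss < K.col.M := h1
      linarith

end Bd

open Bd in
theorem term : Term := by
  intro K h hr hu hA hB
  by_cases hm : K.mem (K.r 0) (K.u 0)
  · have hSt := St_pos K h hr
    have hSs := Ss_pos K h hu
    by_cases hb1 : K.col.M ≤ K.col.b * K.St
    · by_cases ha1 : K.col.M ≤ K.col.a * K.Ss
      · exact Fin_AA K h hr hu hm hA hb1 ha1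
      · push Not at ha1
        have h1 : K.col.b ≤ K.Ss := by
          by_contra hcon
          push Not at hcon
          have : (K.col.b - K.Ss) * (K.col.a * K.Ss - K.col.M) < 0 :=
            mul_neg_of_pos_of_neg (by linarith) (by linarith)
          linarith
        have h2 : K.col.a ≤ K.St := by
          by_contra hcon
          push Not at hcon
          have h3 : K.St * K.Ss < K.col.a * K.Ss := mul_lt_mul_of_pos_right hcon hSs
          have h4 : K.col.b * K.St ≤ K.Ss * K.St := mul_le_mul_of_nonneg_right h1 hSt.le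
          nlinarith
        exact Fin_BB K h hr hu hm hA hB h2 h1
    · push Not at hb1
      have h1 : K.col.a ≤ K.St := by
        by_contra hcon
        push Not at hcon
        have : (K.col.a - K.St) * (K.col.b * K.St - K.col.M) < 0 :=
          mul_neg_of_pos_of_neg (by linarith) (by linarith)
        linarith
      have h2 : K.col.b ≤ K.Ss := by
        by_contra hcon
        push Not at hcon
        have h3 : K.Ss * K.St < K.col.b * K.St := mul_lt_mul_of_pos_right hcon hSt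
        have h4 : K.col.a * K.Ss ≤ K.St * K.Ss := mul_le_mul_of_nonneg_right h1 hSs.le
        have h5 : K.col.a * K.Ss - K.col.M < 0 := by linarith
        have h6 : (K.col.b - K.Ss) * (K.col.a * K.Ss - K.col.M) < 0 :=
          mul_neg_of_pos_of_neg (by linarith) h5
        linarith
      exact Fin_BB K h hr hu hm hA hB h1 h2
  · exact Fin_A K h hr hu hm hA hB

end Pool.Agent.Lib.MP_1dedaf_gt.DK
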