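import Pool.Agent.Lib.MP_1dedaf_gt.Mg.G043
import Pool.Agent.Lib.MP_1dedaf_gt.Mg.G047

/-!
# TASK TM M1: the first monotonicity lemma for strips

Write `e = ec L R`, `E = e y`, `E' = e s`, `D = s - y > 0`, `d = E' - E`. If `d < 0` apply the statement to the strip `(-R, -L)` (`strip_neg`); so let `d ≥ 0` (state this case as a private lemma first). Then
`Om y - Om s = ∫_y^s sinh (om t) cosh (e t - E) dt - ∫_s^w sinh (om t) (cosh (e t - E') - cosh (e t - E)) dt`. The first integral is `≥ D sinh lam`. In the second one `E = E' - d`, and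
by `loss1` with `L = L t`, `R = R t` the integrand is `≤ (d/2)(cosh (max 0 (E' - L t)) - 1)`. Since `L` is convex, for `t ≥ s`: `L t ≥ L s + ((L s - L y)/D)(t - s)`, where `L s = E' - lam`, `L y = E - om y ≤ E - lam`, so `L s - L y ≥ d`:
`E' - L t ≤ lam - (d/D)(t - s)`. If `d = 0` the second integral is `≤ 0`; if `d > 0`, `hh2_int` with `c = d/D` gives `∫_s^w (d/2)(...) ≤ (D/2)(sinh lam - lam)`. So `Om y - Om s ≥ D sinh lam - (D/2)(sinh lam - lam) = (D/2)(sinh lam + lam) > 0`.
-/

set_option autoImplicit false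

open MeasureTheory Set Filter Topology

namespace Pool.Agent.Lib.MP_1dedaf_gt.DK

private theorem M1_case {w : ℝ} {L R : ℝ → ℝ} (h : Strip w L R) {y s lam : ℝ} (hy : 0 ≤ y) (hys : y < s) (hsw : s ≤ w)
    (hlam : 0 < lam) (hom : ∀ x ∈ Icc y s, lam ≤ om L R x) (hs : om L R s = lam) (hd : ec L R y ≤ ec L R s) :
    Om w L R s < Om w L R y := by
  have hcom : Continuous (om L R) := (om_cont h).1
  have hcec : Continuous (ec L R) := (om_cont h).2
  obtain ⟨E, hE⟩ : ∃ E, E = ec L R y := ⟨_, rfl⟩
  obtain ⟨E', hE'⟩ : ∃ E', E' = ec L R s := ⟨_, rfl⟩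
  have hd0 : 0 ≤ E' - E := by rw [hE, hE']; linarith
  have hD : 0 < s - y := by linarith
  have hs0 : 0 ≤ s := by linarith
  have c1 : Continuous (fun t => Real.sinh (om L R t) * Real.cosh (ec L R t - E)) := by fun_prop
  have c2 : Continuous (fun t => Real.sinh (om L R t) * Real.cosh (ec L R t - E')) := by fun_prop
  have e1 : Om w L R y = (∫ t in y..s, Real.sinh (om L R t) * Real.cosh (ec L R t - E)) +
      ∫ t in s..w, Real.sinh (om L R t) * Real.cosh (ec L R t - E) := by
    unfold Om
    rw [← hE, intervalIntegral.integral_add_adjacent_intervals (c1.intervalIntegrable _ _) (c1.intervalIntegrable _ _)]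
  have e2 : Om w L R s = ∫ t in s..w, Real.sinh (om L R t) * Real.cosh (ec L R t - E') := by
    unfold Om
    rw [← hE']
  have hsl : 0 < Real.sinh lam := Real.sinh_pos_iff.mpr hlam
  have hsl2 : lam ≤ Real.sinh lam := Real.self_le_sinh_iff.mpr hlam.le
  have i1 : (s - y) * Real.sinh lam ≤ ∫ t in y..s, Real.sinh (om L R t) * Real.cosh (ec L R t - E) := by
    have h1 : ∫ _t in y..s, Real.sinh lam = (s - y) * Real.sinh lam := by
      rw [intervalIntegral.integral_const, smul_eq_mul]
    rw [← h1]
    refine intervalIntegral.integral_mono_on hys.le (by simp) (c1.intervalIntegrable _ _) ?_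
    intro t ht
    have h2 : Real.sinh lam ≤ Real.sinh (om L R t) := Real.sinh_le_sinh.mpr (hom t ht)
    have h3 : 1 ≤ Real.cosh (ec L R t - E) := Real.one_le_cosh _
    nlinarith
  have hLs : L s = E' - lam := by
    rw [hE', ← hs]
    unfold ec om
    ring
  have hLy : L y ≤ E - lam := by
    have h1 := hom y ⟨le_refl _, hys.le⟩
    have h2 : L y = E - om L R y := by
      rw [hE]
      unfold ec om
      ring
    linarith
  have hLt : ∀ t ∈ Icc s w, E' - L t ≤ lam - (E' - E) / (s - y) * (t - s) := by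
    intro t ht
    rcases eq_or_lt_of_le ht.1 with h1 | h1
    · rw [← h1, hLs]
      simp
    · have h2 := h.vL.slope_mono_adjacent (x := y) (y := s) (z := t) ⟨hy, by linarith⟩ ⟨by linarith [ht.1], ht.2⟩ hys h1
      have h3 : (E' - E) / (s - y) ≤ (L s - L y) / (s - y) := by
        apply div_le_div_of_nonneg_right _ hD.le
        linarith
      have h4 : (E' - E) / (s - y) ≤ (L t - L s) / (t - s) := h3.trans h2
      have h5 : 0 < t - s := by linarith
      rw [le_div_iff₀ h5] at h4
      linarith
  have hpt : ∀ t ∈ Icc s w, Real.sinh (om L R t) * Real.cosh (ec L R t - E') -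
      Real.sinh (om L R t) * Real.cosh (ec L R t - E) ≤
      (E' - E) / 2 * (Real.cosh (max 0 (lam - (E' - E) / (s - y) * (t - s))) - 1) := by
    intro t ht
    have h1 := loss1 (L t) (R t) E' (E' - E) (h.le t ⟨by linarith [ht.1], ht.2⟩) hd0
    have h2 : E' - (E' - E) = E := by ring
    rw [h2] at h1
    have h3 : Real.cosh (max 0 (E' - L t)) ≤ Real.cosh (max 0 (lam - (E' - E) / (s - y) * (t - s))) := by
      rw [Real.cosh_le_cosh, abs_of_nonneg (le_max_left _ _), abs_of_nonneg (le_max_left _ _)]
      exact max_le_max (le_refl _) (hLt t ht)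
    have h4 : (E' - E) * (Real.cosh (max 0 (E' - L t)) - 1) ≤
        (E' - E) * (Real.cosh (max 0 (lam - (E' - E) / (s - y) * (t - s))) - 1) :=
      mul_le_mul_of_nonneg_left (by linarith) hd0
    have h5 : om L R t = (R t - L t) / 2 := rfl
    have h6 : ec L R t = (R t + L t) / 2 := rfl
    rw [h5, h6]
    linarith
  have c3 : Continuous (fun t => (E' - E) / 2 * (Real.cosh (max 0 (lam - (E' - E) / (s - y) * (t - s))) - 1)) := by
    have c4 : Continuous (fun t : ℝ => max 0 (lam - (E' - E) / (s - y) * (t - s))) :=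
      continuous_const.max (by fun_prop)
    exact continuous_const.mul ((Real.continuous_cosh.comp c4).sub continuous_const)
  have i2 : (∫ t in s..w, Real.sinh (om L R t) * Real.cosh (ec L R t - E')) -
      (∫ t in s..w, Real.sinh (om L R t) * Real.cosh (ec L R t - E)) ≤ (s - y) / 2 * (Real.sinh lam - lam) := by
    rw [← intervalIntegral.integral_sub (c2.intervalIntegrable _ _) (c1.intervalIntegrable _ _)]
    have h1 : ∫ t in s..w, (Real.sinh (om L R t) * Real.cosh (ec L R t - E') -
        Real.sinh (om L R t) * Real.cosh (ec L R t - E)) ≤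
        ∫ t in s..w, (E' - E) / 2 * (Real.cosh (max 0 (lam - (E' - E) / (s - y) * (t - s))) - 1) :=
      intervalIntegral.integral_mono_on hsw ((c2.sub c1).intervalIntegrable _ _) (c3.intervalIntegrable _ _) hpt
    refine h1.trans ?_
    rw [intervalIntegral.integral_const_mul]
    rcases eq_or_lt_of_le hd0 with h2 | h2
    · rw [← h2]
      have h3 : 0 ≤ (s - y) / 2 * (Real.sinh lam - lam) := mul_nonneg (by linarith) (by linarith)
      simpa using h3
    · have h3 := hh2_int lam ((E' - E) / (s - y)) s w (div_pos h2 hD) hsw hlam.le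
      have h4 : (E' - E) / 2 * ∫ t in s..w, (Real.cosh (max 0 (lam - (E' - E) / (s - y) * (t - s))) - 1) ≤
          (E' - E) / 2 * ((Real.sinh lam - lam) / ((E' - E) / (s - y))) :=
        mul_le_mul_of_nonneg_left h3 (by linarith)
      refine h4.trans (le_of_eq ?_)
      field_simp
  have h7 : 0 < (s - y) / 2 * (Real.sinh lam + lam) := mul_pos (by linarith) (by linarith)
  rw [e1, e2]
  nlinarith

theorem strip_M1 {w : ℝ} {L R : ℝ → ℝ} (h : Strip w L R) {y s lam : ℝ} (hy : 0 ≤ y) (hys : y < s) (hsw : s ≤ w)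
    (hlam : 0 < lam) (hom : ∀ x ∈ Icc y s, lam ≤ om L R x) (hs : om L R s = lam) : Om w L R s < Om w L R y := by
  rcases le_total (ec L R y) (ec L R s) with hd | hd
  · exact M1_case h hy hys hsw hlam hom hs hd
  · obtain ⟨h1, h2, h3, h4⟩ := strip_neg h
    rw [← h4 s, ← h4 y]
    refine M1_case h1 hy hys hsw hlam ?_ ?_ ?_
    · intro x hx
      rw [h2 x]
      exact hom x hx
    · rw [h2 s]
      exact hs
    · rw [h3 y, h3 s]
      linarith

end Pool.Agent.Lib.MP_1dedaf_gt.DK
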