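import Pool.Agent.Lib.MP_1dedaf_gt.Mg.G043
import Pool.Agent.Lib.MP_1dedaf_gt.Mg.G047

/-!
# TASK TM M2: the second monotonicity lemma for strips

Write `e = ec L R`, `w0 = lam - phi = om y ≥ 0`, `k = sinh phi / phi ≥ 1`, `D = y - s > 0`, `d = e y - e s`. If `d < 0` apply the statement to the strip `(-R, -L)` (`strip_neg`); so let `d ≥ 0` (state this case as a private lemma first). We show `2 Om s - 2 k Om y ≥ 0` (multiply by `phi`). It is
`2 ∫_s^y sinh (om t) cosh (e t - e s) dt - ∫_y^w 2 sinh (om t) (k cosh (e t - e y) - cosh (e t - e s)) dt`.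
(a) For `t ∈ [s, y]`: `om` is concave, so `om t ≥ lam - (phi/D)(t - s)`; hence the first integral is `≥ 2 ∫_s^y sinh (lam - (phi/D)(t - s)) dt = 2 D (cosh lam - cosh w0)/phi`.
(b) For `t ∈ [y, w]`, `loss2` with `L = L t`, `R = R t`, `e = e y`, `e y - d = e s` bounds the second integrand by
`max 0 (k - cosh d) sinh (max 0 (R t - e y)) + (k-1) sinh (max 0 (e y - L t)) + d (cosh (max 0 (e y - L t)) - 1)`.
(c) By convexity of `L` for `t ≥ y`: `L t ≥ L y + ((L y - L s)/D)(t - y)`, `L y = e y - w0`, `L s = e s - lam`, so `L y - L s = d + phi` and `e y - L t ≤ w0 - ((d+phi)/D)(t - y)`. By concavity of `R`: `R t ≤ R y + ((R y - R s)/D)(t - y)`,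
`R y - R s = d - phi`, so `R t - e y ≤ w0 - ((phi - d)/D)(t - y)`.
(d) If `d < phi`: by `hh1_int`, `hh2_int` (`c = (phi-d)/D`, `c = (phi+d)/D`) the second integral is at most
`max 0 (k - cosh d)(cosh w0 - 1) D/(phi-d) + (k-1)(cosh w0 - 1) D/(phi+d) + d (sinh w0 - w0) D/(phi+d)`. By `num1` `k - cosh d ≤ (phi-d)(cosh phi - 1)/phi` (also the maximum with `0`), in particular (`d = 0`) `k - 1 ≤ cosh phi - 1`; with `1/(phi+d) ≤ 1/phi`, `d/(phi+d) ≤ 1` the sum is
`≤ (D/phi)(2 (cosh phi - 1)(cosh w0 - 1) + phi (sinh w0 - w0)) < (D/phi) 2 (cosh (w0+phi) - cosh w0)` (`num2`), `lam = w0 + phi`.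
(e) If `d ≥ phi`: `k ≤ cosh phi ≤ cosh d` (`num1` at `d = phi`), so the first term is absent and the same estimate works.
-/

set_option autoImplicit false

open MeasureTheory Set Filter Topology

namespace Pool.Agent.Lib.MP_1dedaf_gt.DK

private theorem M2_ext {w : ℝ} {f : ℝ → ℝ} (hf : ConvexOn ℝ (Icc 0 w) f) {s y t : ℝ} (hs : 0 ≤ s)
    (hsy : s < y) (hyt : y ≤ t) (htw : t ≤ w) :
    (y - s) * f y + (t - y) * (f y - f s) ≤ (y - s) * f t := by
  have hst : 0 < t - s := by linarith
  have h := hf.2 (show s ∈ Icc 0 w from ⟨hs, by linarith⟩)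
    (show t ∈ Icc 0 w from ⟨by linarith, htw⟩)
    (show 0 ≤ (t - y) / (t - s) from div_nonneg (by linarith) hst.le)
    (show 0 ≤ (y - s) / (t - s) from div_nonneg (by linarith) hst.le)
    (by rw [← add_div, div_eq_one_iff_eq hst.ne']; ring)
  have e1 : ((t - y) / (t - s)) • s + ((y - s) / (t - s)) • t = y := by
    simp only [smul_eq_mul]
    field_simp
    ring
  rw [e1] at h
  simp only [smul_eq_mul] at h
  have h2 := mul_le_mul_of_nonneg_left h hst.le
  have e2 : (t - s) * ((t - y) / (t - s) * f s + (y - s) / (t - s) * f t) =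
      (t - y) * f s + (y - s) * f t := by
    field_simp
  rw [e2] at h2
  nlinarith [h2]

private theorem M2_first (lam phi D s : ℝ) (hphi : 0 < phi) (hD : 0 < D) :
    ∫ t in s..(s + D), Real.sinh (lam - phi / D * (t - s)) =
      D / phi * (Real.cosh lam - Real.cosh (lam - phi)) := by
  have hd : ∀ t ∈ uIcc s (s + D), HasDerivAt
      (fun t => -(D / phi) * Real.cosh (lam - phi / D * (t - s)))
      (Real.sinh (lam - phi / D * (t - s))) t := by
    intro t _
    have h1 : HasDerivAt (fun t : ℝ => lam - phi / D * (t - s)) (-(phi / D * 1)) t :=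
      (((hasDerivAt_id t).sub_const s).const_mul (phi / D)).const_sub lam
    have h2 := (h1.cosh).const_mul (-(D / phi))
    have e : -(D / phi) * (Real.sinh (lam - phi / D * (t - s)) * -(phi / D * 1)) =
        Real.sinh (lam - phi / D * (t - s)) := by
      field_simp
    rw [e] at h2
    exact h2
  rw [intervalIntegral.integral_eq_sub_of_hasDerivAt hd
    (Continuous.intervalIntegrable (by fun_prop) _ _)]
  have e1 : phi / D * (s + D - s) = phi := by
    field_simp
    ring
  have e2 : phi / D * (s - s) = 0 := by ring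
  rw [e1, e2, sub_zero]
  ring

private theorem M2_pos {w : ℝ} {L R : ℝ → ℝ} (h : Strip w L R) {y s lam phi : ℝ} (hs0 : 0 ≤ s)
    (hsy : s < y) (hyw : y ≤ w) (hs : om L R s = lam) (hy : om L R y = lam - phi) (hphi : 0 < phi)
    (hd : ec L R s ≤ ec L R y) :
    Real.sinh phi * Om w L R y ≤ phi * Om w L R s := by
  obtain ⟨co, ce⟩ := om_cont h
  have cL := h.cL
  have cR := h.cR
  have hR : ∀ t, R t = ec L R t + om L R t := fun t => by unfold ec om; ring
  have hL : ∀ t, L t = ec L R t - om L R t := fun t => by unfold ec om; ring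
  obtain ⟨D, hD⟩ : ∃ D, D = y - s := ⟨_, rfl⟩
  obtain ⟨d, hdd⟩ : ∃ d, d = ec L R y - ec L R s := ⟨_, rfl⟩
  obtain ⟨w0, hw0⟩ : ∃ w0, w0 = lam - phi := ⟨_, rfl⟩
  obtain ⟨k, hk⟩ : ∃ k, k = Real.sinh phi / phi := ⟨_, rfl⟩
  have hD0 : 0 < D := by rw [hD]; linarith
  have hd0 : 0 ≤ d := by rw [hdd]; linarith
  have hw00 : 0 ≤ w0 := by
    rw [hw0, ← hy]
    unfold om
    have := h.le y ⟨by linarith, hyw⟩
    linarith
  have hkphi : k * phi = Real.sinh phi := by rw [hk]; field_simp
  have hk1 : 1 ≤ k := by
    rw [hk, le_div_iff₀ hphi, one_mul]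
    exact Real.self_le_sinh_iff.2 hphi.le
  have hk2 : k - 1 ≤ Real.cosh phi - 1 := by
    have := num1 0 phi le_rfl hphi.le
    rw [Real.cosh_zero, ← hkphi] at this
    have h2 : phi * (k - 1) ≤ phi * (Real.cosh phi - 1) := by nlinarith [this]
    exact le_of_mul_le_mul_left h2 hphi
  have hc1 : 1 ≤ Real.cosh phi := Real.one_le_cosh phi
  have hc2 : 1 ≤ Real.cosh w0 := Real.one_le_cosh w0
  have hsw0 : 0 ≤ Real.sinh w0 - w0 := by
    have := Real.self_le_sinh_iff.2 hw00
    linarith
  -- the bound for the second integrand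
  have hb : ∀ t ∈ Icc y w, 2 * (Real.sinh (om L R t) *
      (k * Real.cosh (ec L R t - ec L R y) - Real.cosh (ec L R t - ec L R s))) ≤
      max 0 (k - Real.cosh d) * Real.sinh (max 0 (w0 - (phi - d) / D * (t - y))) +
      ((k - 1) * Real.sinh (max 0 (w0 - (phi + d) / D * (t - y))) +
      d * (Real.cosh (max 0 (w0 - (phi + d) / D * (t - y))) - 1)) := by
    intro t ht
    have h1 := loss2 (L t) (R t) (ec L R y) d k (h.le t ⟨by linarith [ht.1], ht.2⟩) hd0 hk1
    have e1 : (R t - L t) / 2 = om L R t := rfl
    have e2 : (R t + L t) / 2 = ec L R t := rfl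
    have e3 : ec L R y - d = ec L R s := by rw [hdd]; ring
    rw [e1, e2, e3] at h1
    have hRt : R t - ec L R y ≤ w0 - (phi - d) / D * (t - y) := by
      have h2 := M2_ext h.vR.neg hs0 hsy ht.1 ht.2
      simp only [Pi.neg_apply] at h2
      have e4 : (phi - d) / D * (t - y) = (phi - d) * (t - y) / D := by ring
      rw [e4, le_sub_iff_add_le, ← le_sub_iff_add_le', div_le_iff₀ hD0]
      have e5 : R y - R s = d - phi := by rw [hR y, hR s, hs, hy, hdd]; ring
      have e6 : R y = ec L R y + w0 := by rw [hR y, hy, hw0]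
      rw [← hD] at h2
      have e7 : -R y - -R s = phi - d := by linarith
      rw [e7, e6] at h2
      nlinarith [h2]
    have hLt : ec L R y - L t ≤ w0 - (phi + d) / D * (t - y) := by
      have h2 := M2_ext h.vL hs0 hsy ht.1 ht.2
      have e4 : (phi + d) / D * (t - y) = (phi + d) * (t - y) / D := by ring
      rw [e4, le_sub_iff_add_le, ← le_sub_iff_add_le', div_le_iff₀ hD0]
      have e5 : L y - L s = phi + d := by rw [hL y, hL s, hs, hy, hdd]; ring
      have e6 : L y = ec L R y - w0 := by rw [hL y, hy, hw0]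
      rw [← hD, e5, e6] at h2
      nlinarith [h2]
    have m1 : Real.sinh (max 0 (R t - ec L R y)) ≤
        Real.sinh (max 0 (w0 - (phi - d) / D * (t - y))) :=
      Real.sinh_le_sinh.2 (max_le_max le_rfl hRt)
    have m2 : Real.sinh (max 0 (ec L R y - L t)) ≤
        Real.sinh (max 0 (w0 - (phi + d) / D * (t - y))) :=
      Real.sinh_le_sinh.2 (max_le_max le_rfl hLt)
    have m3 : Real.cosh (max 0 (ec L R y - L t)) ≤
        Real.cosh (max 0 (w0 - (phi + d) / D * (t - y))) := by
      rw [Real.cosh_le_cosh, abs_of_nonneg (le_max_left _ _), abs_of_nonneg (le_max_left _ _)]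
      exact max_le_max le_rfl hLt
    have n1 := mul_le_mul_of_nonneg_left m1 (le_max_left 0 (k - Real.cosh d))
    have n2 := mul_le_mul_of_nonneg_left m2 (sub_nonneg.2 hk1)
    have n3 := mul_le_mul_of_nonneg_left (sub_le_sub_right m3 1) hd0
    linarith
  -- the second integral
  have hI2 : ∫ t in y..w, 2 * (Real.sinh (om L R t) *
      (k * Real.cosh (ec L R t - ec L R y) - Real.cosh (ec L R t - ec L R s))) ≤
      D / phi * (2 * ((Real.cosh phi - 1) * (Real.cosh w0 - 1)) +
        phi * (Real.sinh w0 - w0)) := by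
    have c1 : Continuous fun t => max 0 (k - Real.cosh d) *
        Real.sinh (max 0 (w0 - (phi - d) / D * (t - y))) := by fun_prop
    have c2 : Continuous fun t => (k - 1) *
        Real.sinh (max 0 (w0 - (phi + d) / D * (t - y))) := by fun_prop
    have c3 : Continuous fun t => d *
        (Real.cosh (max 0 (w0 - (phi + d) / D * (t - y))) - 1) := by fun_prop
    have c23 : Continuous fun t => (k - 1) *
        Real.sinh (max 0 (w0 - (phi + d) / D * (t - y))) + d *
        (Real.cosh (max 0 (w0 - (phi + d) / D * (t - y))) - 1) := c2.add c3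
    have c123 : Continuous fun t => max 0 (k - Real.cosh d) *
        Real.sinh (max 0 (w0 - (phi - d) / D * (t - y))) + ((k - 1) *
        Real.sinh (max 0 (w0 - (phi + d) / D * (t - y))) + d *
        (Real.cosh (max 0 (w0 - (phi + d) / D * (t - y))) - 1)) := c1.add c23
    have h1 := intervalIntegral.integral_mono_on (μ := volume) hyw
      (Continuous.intervalIntegrable (by fun_prop) y w)
      (Continuous.intervalIntegrable c123 y w) hb
    refine h1.trans ?_
    have e1 : ∫ t in y..w, (max 0 (k - Real.cosh d) *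
        Real.sinh (max 0 (w0 - (phi - d) / D * (t - y))) +
        ((k - 1) * Real.sinh (max 0 (w0 - (phi + d) / D * (t - y))) +
        d * (Real.cosh (max 0 (w0 - (phi + d) / D * (t - y))) - 1))) =
        max 0 (k - Real.cosh d) *
          (∫ t in y..w, Real.sinh (max 0 (w0 - (phi - d) / D * (t - y)))) +
        ((k - 1) * (∫ t in y..w, Real.sinh (max 0 (w0 - (phi + d) / D * (t - y)))) +
        d * ∫ t in y..w, (Real.cosh (max 0 (w0 - (phi + d) / D * (t - y))) - 1)) := by
      rw [intervalIntegral.integral_add (c1.intervalIntegrable y w)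
        (c23.intervalIntegrable y w), intervalIntegral.integral_add
        (c2.intervalIntegrable y w) (c3.intervalIntegrable y w),
        intervalIntegral.integral_const_mul, intervalIntegral.integral_const_mul,
        intervalIntegral.integral_const_mul]
    rw [e1]
    have hcc : 0 < (phi + d) / D := div_pos (by linarith) hD0
    have i2 := hh1_int w0 ((phi + d) / D) y w hcc hyw hw00
    have i3 := hh2_int w0 ((phi + d) / D) y w hcc hyw hw00
    have j1 : max 0 (k - Real.cosh d) *
        (∫ t in y..w, Real.sinh (max 0 (w0 - (phi - d) / D * (t - y)))) ≤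
        D / phi * ((Real.cosh phi - 1) * (Real.cosh w0 - 1)) := by
      by_cases hdp : d < phi
      · have hc0 : 0 < (phi - d) / D := div_pos (by linarith) hD0
        have i1 := hh1_int w0 ((phi - d) / D) y w hc0 hyw hw00
        have q1 : max 0 (k - Real.cosh d) ≤ (phi - d) * (Real.cosh phi - 1) / phi := by
          refine max_le (div_nonneg (mul_nonneg (by linarith) (by linarith)) hphi.le) ?_
          rw [le_div_iff₀ hphi]
          have := num1 d phi hd0 hdp.le
          rw [← hkphi] at this
          nlinarith [this]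
        refine (mul_le_mul_of_nonneg_left i1 (le_max_left _ _)).trans ?_
        refine (mul_le_mul_of_nonneg_right q1 (div_nonneg (by linarith) hc0.le)).trans
          (le_of_eq ?_)
        have hpd : phi - d ≠ 0 := by
          have : 0 < phi - d := by linarith
          exact this.ne'
        field_simp
      · have q1 : max 0 (k - Real.cosh d) = 0 := by
          refine max_eq_left ?_
          have h5 : Real.cosh phi ≤ Real.cosh d := by
            rw [Real.cosh_le_cosh, abs_of_pos hphi, abs_of_nonneg hd0]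
            exact not_lt.1 hdp
          linarith
        rw [q1, zero_mul]
        exact mul_nonneg (div_nonneg hD0.le hphi.le) (mul_nonneg (by linarith) (by linarith))
    have j2 : (k - 1) * (∫ t in y..w, Real.sinh (max 0 (w0 - (phi + d) / D * (t - y)))) ≤
        D / phi * ((Real.cosh phi - 1) * (Real.cosh w0 - 1)) := by
      refine (mul_le_mul_of_nonneg_left i2 (sub_nonneg.2 hk1)).trans ?_
      have r1 : (Real.cosh w0 - 1) / ((phi + d) / D) ≤ D / phi * (Real.cosh w0 - 1) := by
        rw [div_div_eq_mul_div, div_le_iff₀ (by linarith : 0 < phi + d)]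
        have r2 : D / phi * (Real.cosh w0 - 1) * (phi + d) =
            (Real.cosh w0 - 1) * D + d * (D / phi * (Real.cosh w0 - 1)) := by
          field_simp
        rw [r2]
        have r3 : 0 ≤ d * (D / phi * (Real.cosh w0 - 1)) :=
          mul_nonneg hd0 (mul_nonneg (div_nonneg hD0.le hphi.le) (by linarith))
        linarith
      have r4 : 0 ≤ D / phi * (Real.cosh w0 - 1) :=
        mul_nonneg (div_nonneg hD0.le hphi.le) (by linarith)
      have r5 := mul_le_mul hk2 r1 (div_nonneg (by linarith) hcc.le)
        (by linarith : 0 ≤ Real.cosh phi - 1)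
      linarith
    have j3 : d * (∫ t in y..w, (Real.cosh (max 0 (w0 - (phi + d) / D * (t - y))) - 1)) ≤
        D / phi * (phi * (Real.sinh w0 - w0)) := by
      refine (mul_le_mul_of_nonneg_left i3 hd0).trans ?_
      have e5 : D / phi * (phi * (Real.sinh w0 - w0)) = D * (Real.sinh w0 - w0) := by
        field_simp
      rw [e5, div_div_eq_mul_div, mul_div_assoc', div_le_iff₀ (by linarith : 0 < phi + d)]
      have r3 : 0 ≤ phi * (D * (Real.sinh w0 - w0)) :=
        mul_nonneg hphi.le (mul_nonneg hD0.le hsw0)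
      nlinarith [r3]
    have e6 : D / phi * (2 * ((Real.cosh phi - 1) * (Real.cosh w0 - 1)) +
        phi * (Real.sinh w0 - w0)) = D / phi * ((Real.cosh phi - 1) * (Real.cosh w0 - 1)) +
        (D / phi * ((Real.cosh phi - 1) * (Real.cosh w0 - 1)) +
        D / phi * (phi * (Real.sinh w0 - w0))) := by ring
    rw [e6]
    exact add_le_add j1 (add_le_add j2 j3)
  -- the first integral
  have hI1 : D / phi * (Real.cosh lam - Real.cosh w0) ≤
      ∫ t in s..y, Real.sinh (om L R t) * Real.cosh (ec L R t - ec L R s) := by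
    have e0 := M2_first lam phi D s hphi hD0
    have e1 : s + D = y := by rw [hD]; ring
    rw [e1, ← hw0] at e0
    rw [← e0]
    refine intervalIntegral.integral_mono_on hsy.le
      (Continuous.intervalIntegrable (by fun_prop) s y)
      (Continuous.intervalIntegrable (by fun_prop) s y) (fun t ht => ?_)
    have hot : lam - phi / D * (t - s) ≤ om L R t := by
      have hc := (om_conc h).2 (show s ∈ Icc 0 w from ⟨hs0, by linarith⟩)
        (show y ∈ Icc 0 w from ⟨by linarith, hyw⟩)
        (show 0 ≤ (y - t) / D from div_nonneg (by linarith [ht.2]) hD0.le)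
        (show 0 ≤ (t - s) / D from div_nonneg (by linarith [ht.1]) hD0.le)
        (by rw [← add_div, div_eq_one_iff_eq hD0.ne', hD]; ring)
      have e2 : ((y - t) / D) • s + ((t - s) / D) • y = t := by
        simp only [smul_eq_mul]
        have : D * t = (y - t) * s + (t - s) * y := by rw [hD]; ring
        field_simp
        linarith
      rw [e2] at hc
      simp only [smul_eq_mul] at hc
      rw [hs, hy] at hc
      refine le_trans (le_of_eq ?_) hc
      have h7 : (y - t) / D + (t - s) / D = 1 := by
        rw [← add_div, div_eq_one_iff_eq hD0.ne', hD]; ring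
      have h8 : (y - t) / D = 1 - (t - s) / D := by linarith
      rw [h8]
      ring
    have h0 : 0 ≤ om L R t := by
      unfold om
      have := h.le t ⟨by linarith [ht.1], by linarith [ht.2]⟩
      linarith
    have h1 : Real.sinh (lam - phi / D * (t - s)) ≤ Real.sinh (om L R t) :=
      Real.sinh_le_sinh.2 hot
    have h2 : 0 ≤ Real.sinh (om L R t) := Real.sinh_nonneg_iff.2 h0
    have h3 := Real.one_le_cosh (ec L R t - ec L R s)
    nlinarith [mul_nonneg h2 (sub_nonneg.2 h3)]
  -- assembly
  have hsplit : Om w L R s = (∫ t in s..y, Real.sinh (om L R t) * Real.cosh (ec L R t - ec L R s)) +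
      ∫ t in y..w, Real.sinh (om L R t) * Real.cosh (ec L R t - ec L R s) := by
    unfold Om
    rw [intervalIntegral.integral_add_adjacent_intervals
      (Continuous.intervalIntegrable (by fun_prop) s y)
      (Continuous.intervalIntegrable (by fun_prop) y w)]
  have hcomb : ∫ t in y..w, 2 * (Real.sinh (om L R t) *
      (k * Real.cosh (ec L R t - ec L R y) - Real.cosh (ec L R t - ec L R s))) =
      2 * (k * Om w L R y) -
      2 * ∫ t in y..w, Real.sinh (om L R t) * Real.cosh (ec L R t - ec L R s) := by
    unfold Om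
    rw [← intervalIntegral.integral_const_mul, ← intervalIntegral.integral_const_mul,
      ← intervalIntegral.integral_const_mul, ← intervalIntegral.integral_sub
      (Continuous.intervalIntegrable (by fun_prop) y w)
      (Continuous.intervalIntegrable (by fun_prop) y w)]
    refine intervalIntegral.integral_congr (fun t _ => ?_)
    ring
  have hn := num2 w0 phi hw00 hphi
  have hlam : w0 + phi = lam := by rw [hw0]; ring
  rw [hlam] at hn
  have hDp : 0 < D / phi := div_pos hD0 hphi
  have hn2 := mul_le_mul_of_nonneg_left hn.le hDp.le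
  rw [hcomb] at hI2
  have hfin : 0 ≤ Om w L R s - k * Om w L R y := by
    rw [hsplit]
    linarith
  have hlast : phi * Om w L R s - Real.sinh phi * Om w L R y =
      phi * (Om w L R s - k * Om w L R y) := by
    rw [← hkphi]
    ring
  have := mul_nonneg hphi.le hfin
  linarith

theorem strip_M2 {w : ℝ} {L R : ℝ → ℝ} (h : Strip w L R) {y s lam phi : ℝ} (hs0 : 0 ≤ s) (hsy : s < y) (hyw : y ≤ w)
    (hs : om L R s = lam) (hy : om L R y = lam - phi) (hphi : 0 < phi) :
    Real.sinh phi * Om w L R y ≤ phi * Om w L R s := by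
  rcases le_total (ec L R s) (ec L R y) with hd | hd
  · exact M2_pos h hs0 hsy hyw hs hy hphi hd
  · obtain ⟨h1, h2, h3, h4⟩ := strip_neg h
    have h5 := M2_pos (lam := lam) h1 hs0 hsy hyw (by rw [h2]; exact hs) (by rw [h2]; exact hy) hphi
      (by rw [h3, h3]; linarith)
    rw [h4, h4] at h5
    exact h5

end Pool.Agent.Lib.MP_1dedaf_gt.DK
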