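import Pool.Agent.Lib.MP_1dedaf_gt.Mg.G043
import Pool.Agent.Lib.MP_1dedaf_gt.Mg.G003

/-!
# TASK TM P2ib: the product `M D` and the moment `N 1`

`o = om L R`, `e = ec L R` for `L = K.sL`, `R = K.sR`; they are continuous. `dn x := mu x/(rl x * ru x)`, so `D = ∫_0^w dn` (`A1_D_eq` in A1; if it is private reprove it: `N 0 = ∫ (1/rl - 1/ru) = q ∫ dn`), `Dr x := ∫_x^w dn`.

`P2_MD`. The derivative of `mr x * Dr x` is `- mu x Dr x - dn x mr x`, so `M D = mr 0 * Dr 0 = ∫_0^w (mu x Dr x + dn x mr x) dx`, and by `P2_mu`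
`mu x Dr x + dn x mr x = (4/q^2) ∫_x^w (exp (e x - e t) + exp (e t - e x)) sinh o(x) sinh o(t) dt = (8/q^2) sinh o(x) Om x`.

`P2_N1`. Average of `N1_eq` and `N1_eq'` (`1/rl - 1/ru = q dn`): `N 1 / q = ∫ ((Xl + Xu)/2) dn + ∫ mr (1/rl + 1/ru)/2`. `(Xl + Xu)/2` is `- q M/2` at `0` with derivative `(rl + ru)/2 = exp e cosh o` (`Xl_deriv`, `Xu_deriv`, `Xu_zero`),
so integration by parts (`d/dx [Dr x (Xl x + Xu x)/2] = - dn (Xl+Xu)/2 + Dr exp e cosh o`, `Dr w = 0`) gives `∫ ((Xl+Xu)/2) dn = - (q/2) M D + ∫_0^w Dr x exp (e x) cosh o(x) dx`. Hence `N 1/q = - (q/2) M D + ∫_0^w cosh o(x) (exp (e x) Dr x + exp (- e x) mr x) dx`, and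
`exp (e x) Dr x + exp (- e x) mr x = (2/|q|) ∫_x^w (exp (e x - e t) + exp (e t - e x)) sinh o(t) dt = (4/|q|) Om x`.
-/

set_option autoImplicit false

open MeasureTheory Set Filter Topology

namespace Pool.Agent.Lib.MP_1dedaf_gt.DK

namespace Dat

private noncomputable def dn (K : Dat) (x : ℝ) : ℝ := K.mu x / (K.rl x * K.ru x)

private noncomputable def Dr (K : Dat) (x : ℝ) : ℝ := ∫ t in x..K.w, K.dn t

private theorem dn_cont (K : Dat) (h : K.Reg) : Continuous K.dn := by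
  unfold dn
  exact (K.mu_cont h.cl h.cu).div ((K.rl_cont h.cl).mul (K.ru_cont h.cu))
    fun x => (mul_pos (K.rl_pos x) (K.ru_pos x)).ne'

private theorem Dr_deriv (K : Dat) (h : K.Reg) (x : ℝ) : HasDerivAt K.Dr (- K.dn x) x := by
  have h1 : K.Dr = fun x => - ∫ t in K.w..x, K.dn t := by
    funext x
    unfold Dr
    exact intervalIntegral.integral_symm _ _
  rw [h1]
  exact ((K.dn_cont h).integral_hasStrictDerivAt K.w x).hasDerivAt.neg

private theorem Dr_cont (K : Dat) (h : K.Reg) : Continuous K.Dr := by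
  exact continuous_iff_continuousAt.mpr fun x => (K.Dr_deriv h x).continuousAt

private theorem Dr_w (K : Dat) : K.Dr K.w = 0 := by
  unfold Dr
  exact intervalIntegral.integral_same

private theorem Dr_zero (K : Dat) (h : K.Reg) : K.Dr 0 = K.D := by
  rw [A1_D_eq K h.hq]
  rfl

private theorem om_cont (K : Dat) (h : K.Reg) : Continuous (om K.sL K.sR) := by
  have h1 : om K.sL K.sR = fun x => |K.q| * (K.u x - K.l x) / 2 := by
    funext x
    exact P2_om K x
  rw [h1]
  have := h.cl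
  have := h.cu
  fun_prop

private theorem ec_cont (K : Dat) (h : K.Reg) : Continuous (ec K.sL K.sR) := by
  have h1 : ec K.sL K.sR = fun x => K.p * x + K.q * (K.l x + K.u x) / 2 := by
    funext x
    exact P2_ec K x
  rw [h1]
  have := h.cl
  have := h.cu
  fun_prop

private theorem key (K : Dat) (h : K.Reg) (x : ℝ) :
    Real.exp (ec K.sL K.sR x) * K.Dr x + Real.exp (- ec K.sL K.sR x) * K.mr x =
      4 / |K.q| * Om K.w K.sL K.sR x := by
  have c1 := K.dn_cont h
  have c2 := K.mu_cont h.cl h.cu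
  unfold Dr mr Om
  have j1 : IntervalIntegrable (fun t => Real.exp (ec K.sL K.sR x) * K.dn t) volume x K.w :=
    (by fun_prop : Continuous fun t => Real.exp (ec K.sL K.sR x) * K.dn t).intervalIntegrable _ _
  have j2 : IntervalIntegrable (fun t => Real.exp (- ec K.sL K.sR x) * K.mu t) volume x K.w :=
    (by fun_prop : Continuous fun t => Real.exp (- ec K.sL K.sR x) * K.mu t).intervalIntegrable _ _
  rw [← intervalIntegral.integral_const_mul, ← intervalIntegral.integral_const_mul,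
    ← intervalIntegral.integral_const_mul, ← intervalIntegral.integral_add j1 j2]
  refine intervalIntegral.integral_congr fun t _ => ?_
  obtain ⟨h1, h2, -, -⟩ := P2_mu K h.hq t
  unfold dn
  rw [h2, h1, Real.cosh_eq]
  have e1 : Real.exp (ec K.sL K.sR t - ec K.sL K.sR x) = Real.exp (ec K.sL K.sR t) * Real.exp (- ec K.sL K.sR x) := by
    rw [← Real.exp_add]
    congr 1
  have e2 : Real.exp (-(ec K.sL K.sR t - ec K.sL K.sR x)) = Real.exp (- ec K.sL K.sR t) * Real.exp (ec K.sL K.sR x) := by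
    rw [← Real.exp_add]
    congr 1
    ring
  rw [e1, e2]
  ring

theorem P2_MD (K : Dat) (h : K.Reg) :
    K.M * K.D = 8 / K.q ^ 2 * ∫ x in (0:ℝ)..K.w, Real.sinh (om K.sL K.sR x) * Om K.w K.sL K.sR x := by
  have c1 := K.dn_cont h
  have c2 := K.mu_cont h.cl h.cu
  have c3 := K.mr_cont h.cl h.cu
  have c4 := K.Dr_cont h
  have hd : ∀ x : ℝ, HasDerivAt (fun t : ℝ => K.mr t * K.Dr t) (- K.mu x * K.Dr x + K.mr x * (- K.dn x)) x :=
    fun x => (K.mr_deriv h.cl h.cu x).mul (K.Dr_deriv h x)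
  have hc : Continuous (fun x : ℝ => - K.mu x * K.Dr x + K.mr x * (- K.dn x)) := by fun_prop
  have h1 := intervalIntegral.integral_eq_sub_of_hasDerivAt (a := 0) (b := K.w)
    (fun x _ => hd x) (hc.intervalIntegrable _ _)
  simp only [K.mr_w, K.mr_zero, K.Dr_w, K.Dr_zero h] at h1
  have h2 : (8 / K.q ^ 2 * ∫ x in (0:ℝ)..K.w, Real.sinh (om K.sL K.sR x) * Om K.w K.sL K.sR x) =
      - ∫ x in (0:ℝ)..K.w, (- K.mu x * K.Dr x + K.mr x * (- K.dn x)) := by
    rw [← intervalIntegral.integral_neg, ← intervalIntegral.integral_const_mul]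
    refine intervalIntegral.integral_congr fun x _ => ?_
    obtain ⟨e1, e2, -, -⟩ := P2_mu K h.hq x
    have e3 := K.key h x
    have hq : 0 < |K.q| := abs_pos.mpr h.hq
    have e4 : K.q ^ 2 = |K.q| ^ 2 := (sq_abs _).symm
    have e5 : -(- K.mu x * K.Dr x + K.mr x * (- K.dn x)) = 2 / |K.q| * Real.sinh (om K.sL K.sR x) *
        (Real.exp (ec K.sL K.sR x) * K.Dr x + Real.exp (- ec K.sL K.sR x) * K.mr x) := by
      unfold dn
      rw [e2, e1]
      ring
    rw [e5, e3, e4]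
    field_simp
    ring
  rw [h2, h1]
  ring

theorem P2_N1 (K : Dat) (h : K.Reg) :
    K.N 1 / K.q = - (K.q / 2) * (K.M * K.D) + 4 / |K.q| * ∫ x in (0:ℝ)..K.w, Real.cosh (om K.sL K.sR x) * Om K.w K.sL K.sR x := by
  have c1 := K.dn_cont h
  have c2 := K.mu_cont h.cl h.cu
  have c3 := K.mr_cont h.cl h.cu
  have c4 := K.Dr_cont h
  have c5 := K.Xl_cont h.cl
  have c6 := K.Xu_cont h.cl h.cu
  have c7 := K.rl_cont h.cl
  have c8 := K.ru_cont h.cu
  have c9 := K.om_cont h
  have c10 := K.ec_cont h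
  have ce : Continuous (fun x => Real.exp (ec K.sL K.sR x)) := Real.continuous_exp.comp c10
  have ce' : Continuous (fun x => Real.exp (- ec K.sL K.sR x)) := Real.continuous_exp.comp c10.neg
  have cc : Continuous (fun x => Real.cosh (om K.sL K.sR x)) := Real.continuous_cosh.comp c9
  have hd : ∀ x : ℝ, HasDerivAt (fun t : ℝ => K.Dr t * ((K.Xl t + K.Xu t) / 2))
      (- K.dn x * ((K.Xl x + K.Xu x) / 2) + K.Dr x * ((K.rl x + K.ru x) / 2)) x :=
    fun x => (K.Dr_deriv h x).mul (((K.Xl_deriv h.cl x).add (K.Xu_deriv h.hq h.cl h.cu x)).div_const 2)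
  have hc : Continuous (fun x : ℝ => - K.dn x * ((K.Xl x + K.Xu x) / 2) + K.Dr x * ((K.rl x + K.ru x) / 2)) := by
    fun_prop
  have h1 := intervalIntegral.integral_eq_sub_of_hasDerivAt (a := 0) (b := K.w)
    (fun x _ => hd x) (hc.intervalIntegrable _ _)
  simp only [K.Dr_w, K.Dr_zero h, K.Xl_zero, K.Xu_zero] at h1
  have dens : ∀ x, 1 / K.rl x - 1 / K.ru x = K.q * K.dn x := by
    intro x
    have h1 := (K.rl_pos x).ne'
    have h2 := (K.ru_pos x).ne'
    have h3 := h.hq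
    unfold dn mu
    field_simp
  have inv : ∀ x, (1 / K.rl x + 1 / K.ru x) / 2 = Real.exp (- ec K.sL K.sR x) * Real.cosh (om K.sL K.sR x) :=
    fun x => (P2_mu K h.hq x).2.2.2
  have avg : ∀ x, (K.rl x + K.ru x) / 2 = Real.exp (ec K.sL K.sR x) * Real.cosh (om K.sL K.sR x) :=
    fun x => (P2_mu K h.hq x).2.2.1
  have i1 : Continuous (fun x => 1 / K.rl x) := continuous_const.div c7 fun x => (K.rl_pos x).ne'
  have i2 : Continuous (fun x => 1 / K.ru x) := continuous_const.div c8 fun x => (K.ru_pos x).ne'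
  have hN : K.N 1 = K.q * ((∫ x in (0:ℝ)..K.w, K.dn x * ((K.Xl x + K.Xu x) / 2)) +
      ∫ x in (0:ℝ)..K.w, K.mr x * (Real.exp (- ec K.sL K.sR x) * Real.cosh (om K.sL K.sR x))) := by
    have a1 := N1_eq K h.cl h.cu
    have a2 := N1_eq' K h.cl h.cu
    have k1 : Continuous fun x => K.Xu x * (1 / K.rl x - 1 / K.ru x) := c6.mul (i1.sub i2)
    have k2 : Continuous fun x => K.Xl x * (1 / K.rl x - 1 / K.ru x) := c5.mul (i1.sub i2)
    have k3 : Continuous fun x => K.mr x / K.rl x := c3.div c7 fun x => (K.rl_pos x).ne'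
    have k4 : Continuous fun x => K.mr x / K.ru x := c3.div c8 fun x => (K.ru_pos x).ne'
    have a3 : (∫ x in (0:ℝ)..K.w, K.Xu x * (1 / K.rl x - 1 / K.ru x)) +
        (∫ x in (0:ℝ)..K.w, K.Xl x * (1 / K.rl x - 1 / K.ru x)) =
        2 * (K.q * ∫ x in (0:ℝ)..K.w, K.dn x * ((K.Xl x + K.Xu x) / 2)) := by
      rw [← intervalIntegral.integral_add (k1.intervalIntegrable _ _) (k2.intervalIntegrable _ _),
        ← intervalIntegral.integral_const_mul, ← intervalIntegral.integral_const_mul]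
      refine intervalIntegral.integral_congr fun x _ => ?_
      rw [dens x]
      ring
    have a4 : (∫ x in (0:ℝ)..K.w, K.mr x / K.rl x) + (∫ x in (0:ℝ)..K.w, K.mr x / K.ru x) =
        2 * ∫ x in (0:ℝ)..K.w, K.mr x * (Real.exp (- ec K.sL K.sR x) * Real.cosh (om K.sL K.sR x)) := by
      rw [← intervalIntegral.integral_add (k3.intervalIntegrable _ _) (k4.intervalIntegrable _ _),
        ← intervalIntegral.integral_const_mul]
      refine intervalIntegral.integral_congr fun x _ => ?_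
      rw [← inv x]
      ring
    linear_combination (1 / 2 : ℝ) * a1 + (1 / 2 : ℝ) * a2 + (1 / 2 : ℝ) * a3 + (K.q / 2) * a4
  have m1 : Continuous fun x => K.dn x * ((K.Xl x + K.Xu x) / 2) := by fun_prop
  have m2 : Continuous fun x => K.Dr x * ((K.rl x + K.ru x) / 2) := by fun_prop
  have m3 : Continuous fun x => K.mr x * (Real.exp (- ec K.sL K.sR x) * Real.cosh (om K.sL K.sR x)) :=
    c3.mul (ce'.mul cc)
  have h2 : (∫ x in (0:ℝ)..K.w, (- K.dn x * ((K.Xl x + K.Xu x) / 2) + K.Dr x * ((K.rl x + K.ru x) / 2))) =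
      (∫ x in (0:ℝ)..K.w, K.Dr x * ((K.rl x + K.ru x) / 2)) -
        ∫ x in (0:ℝ)..K.w, K.dn x * ((K.Xl x + K.Xu x) / 2) := by
    rw [← intervalIntegral.integral_sub (m2.intervalIntegrable _ _) (m1.intervalIntegrable _ _)]
    refine intervalIntegral.integral_congr fun x _ => ?_
    ring
  have h3 : (∫ x in (0:ℝ)..K.w, K.Dr x * ((K.rl x + K.ru x) / 2)) +
      (∫ x in (0:ℝ)..K.w, K.mr x * (Real.exp (- ec K.sL K.sR x) * Real.cosh (om K.sL K.sR x))) =
      4 / |K.q| * ∫ x in (0:ℝ)..K.w, Real.cosh (om K.sL K.sR x) * Om K.w K.sL K.sR x := by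
    rw [← intervalIntegral.integral_add (m2.intervalIntegrable _ _) (m3.intervalIntegrable _ _),
      ← intervalIntegral.integral_const_mul]
    refine intervalIntegral.integral_congr fun x _ => ?_
    have e3 := K.key h x
    rw [avg x]
    linear_combination Real.cosh (om K.sL K.sR x) * e3
  rw [hN, mul_div_cancel_left₀ _ h.hq]
  rw [h2] at h1
  linear_combination h3 - h1

end Dat

end Pool.Agent.Lib.MP_1dedaf_gt.DK
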