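import Pool.Agent.Lib.MP_1dedaf_gt.Mg.G043
import Pool.Agent.Lib.MP_1dedaf_gt.Mg.G044

/-!
# TM F0: formulas over the side `y = 0`
-/

set_option autoImplicit false

open MeasureTheory Set Filter Topology

namespace Pool.Agent.Lib.MP_1dedaf_gt.DK

theorem ee_nonneg (k x : ℝ) (hk : k ≠ 0) (hx : 0 ≤ x) : 0 ≤ ee k x := by
  unfold ee
  rcases lt_or_gt_of_ne hk with h | h
  · apply div_nonneg_of_nonpos _ h.le
    have : Real.exp (k * x) ≤ 1 := Real.exp_le_one_iff.2 (mul_nonpos_of_nonpos_of_nonneg h.le hx)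
    linarith
  · apply div_nonneg _ h.le
    have : 1 ≤ Real.exp (k * x) := Real.one_le_exp (mul_nonneg h.le hx)
    linarith

theorem ee_mono (k : ℝ) (hk : k ≠ 0) : StrictMono (ee k) := by
  intro x y hxy
  unfold ee
  rcases lt_or_gt_of_ne hk with h | h
  · apply div_lt_div_of_neg_of_lt h
    have := Real.exp_lt_exp.2 (mul_lt_mul_of_neg_left hxy h)
    linarith
  · apply div_lt_div_of_pos_right _ h
    have := Real.exp_lt_exp.2 (mul_lt_mul_of_pos_left hxy h)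
    linarith

theorem ee_pos (k x : ℝ) (hk : k ≠ 0) (hx : 0 < x) : 0 < ee k x := by
  have h := ee_mono k hk hx
  have h0 : ee k 0 = 0 := by unfold ee; simp
  rwa [h0] at h

theorem exp_ee (k x : ℝ) (hk : k ≠ 0) : Real.exp (k * x) = 1 + k * ee k x := by
  unfold ee
  field_simp
  ring

theorem ee_int (k x : ℝ) (hk : k ≠ 0) : ∫ t in (0:ℝ)..x, Real.exp (k * t) = ee k x := by
  have h := intervalIntegral.integral_eq_sub_of_hasDerivAt (f := ee k)
    (f' := fun t : ℝ => Real.exp (k * t)) (a := 0) (b := x) (fun t _ => ?_) ?_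
  · rw [h]
    unfold ee
    simp
  · have := ((((hasDerivAt_id t).const_mul k).exp).sub_const 1).div_const k
    simp only [id, mul_one] at this
    rw [mul_div_assoc, div_self hk, mul_one] at this
    exact this
  · exact (by fun_prop : Continuous fun t : ℝ => Real.exp (k * t)).intervalIntegrable _ _

namespace Bd

theorem St_pos (K : Bd) (h : K.CF) (hr : 0 < K.r 0) : 0 < K.St := ee_pos _ _ h.hp hr

theorem Ss_pos (K : Bd) (h : K.CF) (hu : 0 < K.u 0) : 0 < K.Ss := ee_pos _ _ h.hq hu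

theorem cReg (K : Bd) (h : K.CF) : K.col.Reg := by
  obtain ⟨-, -, -, -, -, -, -, -, -, -, hR, -, -⟩ := cf_facts K h
  exact hR

theorem l_t (K : Bd) (h : K.CF) {x : ℝ} (hx : 0 ≤ x) (hx1 : x ≤ K.r 0) : K.l x = 0 := by
  obtain ⟨-, -, -, -, -, -, hl, -⟩ := cf_facts K h
  exact (hl x hx hx1).2.1

theorem rl_t (K : Bd) (h : K.CF) {x : ℝ} (hx : 0 ≤ x) (hx1 : x ≤ K.r 0) : K.col.rl x = Real.exp (K.p * x) := by
  unfold Dat.rl
  have : K.col.l x = 0 := l_t K h hx hx1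
  rw [this, mul_zero, add_zero]
  rfl

theorem Xl_t (K : Bd) (h : K.CF) {x : ℝ} (hx : 0 ≤ x) (hx1 : x ≤ K.r 0) : K.col.Xl x = ee K.p x := by
  unfold Dat.Xl
  rw [← ee_int K.p x h.hp]
  refine intervalIntegral.integral_congr fun t ht => ?_
  rw [uIcc_of_le hx] at ht
  exact rl_t K h ht.1 (ht.2.trans hx1)

theorem Yl_t (K : Bd) (h : K.CF) {x : ℝ} (hx : 0 ≤ x) (hx1 : x ≤ K.r 0) : K.col.Yl x = - (K.p * K.col.M) := by
  unfold Dat.Yl
  rw [Xl_t K h hx hx1, rl_t K h hx hx1, exp_ee K.p x h.hp]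
  have hq : K.col.q ≠ 0 := h.hq
  have hp : K.col.p = K.p := rfl
  rw [hp]
  field_simp
  ring

theorem Yu_0 (K : Bd) (h : K.CF) : K.col.Yu 0 = K.Ss := by
  unfold Dat.Yu Ss
  rw [K.col.Xu_zero]
  unfold Dat.ru ee
  simp only [mul_zero, zero_add]
  have hq : K.col.q = K.q := rfl
  have hu : K.col.u = K.u := rfl
  rw [hq, hu]
  congr 1
  ring

theorem mu_t (K : Bd) (h : K.CF) {x : ℝ} (hx : 0 ≤ x) (hx1 : x ≤ K.r 0) :
    K.col.mu x = Real.exp (K.p * x) * ee K.q (K.u x) := by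
  unfold Dat.mu ee
  rw [rl_t K h hx hx1]
  have e : K.col.ru x = Real.exp (K.p * x) * Real.exp (K.q * K.u x) := by
    unfold Dat.ru
    rw [← Real.exp_add]
    rfl
  rw [e]
  have hq : K.col.q = K.q := rfl
  rw [hq]
  ring

theorem Yu_t (K : Bd) (h : K.CF) {x : ℝ} (hx : 0 ≤ x) (hx1 : x ≤ K.r 0) :
    K.col.Yu x = Real.exp (K.p * x) * ee K.q (K.u x) - K.p * K.col.M + K.p * K.col.mr x := by
  have hq : K.q ≠ 0 := h.hq
  have hm := mu_t K h hx hx1
  have h1 : K.col.Yu x = K.col.Yl x + K.col.mu x + K.p * K.col.mr x := by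
    unfold Dat.Yu Dat.Yl Dat.mu Dat.Xu
    have e1 : K.col.q = K.q := rfl
    have e2 : K.col.p = K.p := rfl
    rw [e1, e2]
    field_simp
    ring
  rw [h1, hm, Yl_t K h hx hx1]
  ring

theorem M_split (K : Bd) (h : K.CF) {x : ℝ} (hx : 0 ≤ x) (hx1 : x ≤ K.r 0) :
    K.col.M = (∫ t in (0:ℝ)..x, Real.exp (K.p * t) * ee K.q (K.u t)) + K.col.mr x := by
  have hi := fun a b : ℝ => (K.col.mu_cont h.cl h.cu).intervalIntegrable (μ := volume) a b
  have h1 : K.col.M = (∫ t in (0:ℝ)..x, K.col.mu t) + K.col.mr x := by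
    unfold Dat.M Dat.mr
    rw [intervalIntegral.integral_add_adjacent_intervals (hi _ _) (hi _ _)]
  rw [h1]
  congr 1
  refine intervalIntegral.integral_congr fun t ht => ?_
  rw [uIcc_of_le hx] at ht
  exact mu_t K h ht.1 (ht.2.trans hx1)

theorem x1_le (K : Bd) (h : K.CF) : K.r 0 ≤ K.w := by
  obtain ⟨-, -, -, -, -, -, -, -, hw, -⟩ := cf_facts K h
  exact hw

/-- If `u x1 ≤ u 0` then `M` is at least the mass of the box `[0, x1] × [0, u x1]` plus the mass to the right of `x1`. -/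
theorem M_ge (K : Bd) (h : K.CF) (hr : 0 < K.r 0) (hc : K.u (K.r 0) ≤ K.u 0) :
    K.St * ee K.q (K.u (K.r 0)) + K.col.mr (K.r 0) ≤ K.col.M := by
  rw [M_split K h hr.le le_rfl]
  have hx1 := x1_le K h
  have h1 : K.St * ee K.q (K.u (K.r 0)) ≤ ∫ t in (0:ℝ)..(K.r 0), Real.exp (K.p * t) * ee K.q (K.u t) := by
    unfold St
    rw [← ee_int K.p _ h.hp, ← intervalIntegral.integral_mul_const]
    have hce : Continuous (ee K.q) := by unfold ee; fun_prop
    refine intervalIntegral.integral_mono_on hr.le ?_ ?_ fun t ht => ?_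
    · exact (by fun_prop : Continuous fun t : ℝ => Real.exp (K.p * t) * ee K.q (K.u (K.r 0))).intervalIntegrable _ _
    · exact ((by fun_prop : Continuous fun t : ℝ => Real.exp (K.p * t)).mul (hce.comp h.cu)).intervalIntegrable _ _
    · refine mul_le_mul_of_nonneg_left ?_ (Real.exp_pos _).le
      apply (ee_mono K.q h.hq).monotone
      have h2 : min (K.u 0) (K.u (K.r 0)) ≤ K.u t :=
        h.vu.min_le_of_mem_Icc ⟨le_rfl, h.hw.le⟩ ⟨hr.le, hx1⟩ ht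
      rwa [min_eq_right hc] at h2
  linarith

/-- If `u x1 ≤ u 0` then the upper boundary point over `x1` is not above the hyperbola. -/
theorem Yu_x1_le (K : Bd) (h : K.CF) (hr : 0 < K.r 0) (hc : K.u (K.r 0) ≤ K.u 0) :
    K.col.Yu (K.r 0) ≤ K.col.M / K.St := by
  have hS := St_pos K h hr
  rw [le_div_iff₀ hS, Yu_t K h hr.le le_rfl]
  have h1 := M_ge K h hr hc
  have h2 := exp_ee K.p (K.r 0) h.hp
  have h3 : K.St = ee K.p (K.r 0) := rfl
  rw [← h3] at h2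
  have h4 := K.col.mr_nonneg (cReg K h) (K.r 0) ⟨hr.le, x1_le K h⟩
  have e0 := Real.exp_pos (K.p * K.r 0)
  have h5 : (Real.exp (K.p * K.r 0) * ee K.q (K.u (K.r 0)) - K.p * K.col.M + K.p * K.col.mr (K.r 0)) * K.St
      = Real.exp (K.p * K.r 0) * (K.St * ee K.q (K.u (K.r 0)) + K.col.mr (K.r 0) - K.col.M) + K.col.M - K.col.mr (K.r 0) := by
    have h6 : K.p * K.St = Real.exp (K.p * K.r 0) - 1 := by linarith
    linear_combination (K.col.mr (K.r 0) - K.col.M) * h6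
  rw [h5]
  nlinarith

/-- For `p > 0` and `u x1 ≤ u 0`: `Yu x1 ≤ ee q (u x1)`. -/
theorem Yu_x1_le' (K : Bd) (h : K.CF) (hp : 0 < K.p) (hr : 0 < K.r 0) (hc : K.u (K.r 0) ≤ K.u 0) :
    K.col.Yu (K.r 0) ≤ ee K.q (K.u (K.r 0)) := by
  rw [Yu_t K h hr.le le_rfl]
  have h1 := M_ge K h hr hc
  have h2 := exp_ee K.p (K.r 0) h.hp
  have h3 : K.St = ee K.p (K.r 0) := rfl
  rw [← h3] at h2
  have h4 := mul_le_mul_of_nonneg_left h1 hp.le
  rw [h2]
  nlinarith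

theorem u_anti (K : Bd) (h : K.CF) (hr : 0 < K.r 0) (hc : K.u (K.r 0) < K.u 0) : AntitoneOn K.u (Icc (K.r 0) K.w) := by
  obtain ⟨xN, hxN, hm, ha⟩ := exists_top K h.toOk
  have h1 : xN < K.r 0 := by
    by_contra hcon
    push Not at hcon
    have := hm ⟨le_rfl, hxN.1⟩ ⟨hr.le, hcon⟩ hr.le
    linarith
  exact ha.mono fun t ht => ⟨h1.le.trans ht.1, ht.2⟩

theorem Y_right (K : Bd) (h : K.CF) (hr : 0 < K.r 0) (hc : K.u (K.r 0) < K.u 0) :
    ∀ x ∈ Icc (K.r 0) K.w, K.col.Yu K.w ≤ K.col.Yu x ∧ K.col.Yu x ≤ K.col.Yu (K.r 0) ∧ K.col.Yl x ≤ K.col.Yu K.w ∧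
      K.col.Yl x ≤ K.col.Yu (K.r 0) := by
  intro x hx
  have hx1 := x1_le K h
  have ha := u_anti K h hr hc
  have h1 : K.col.Yu K.w ≤ K.col.Yu x := K.col.Yu_ge h.hq h.cl h.cu x K.w hx.2
    (ha.mono fun t ht => ⟨hx.1.trans ht.1, ht.2⟩)
  have h2 : K.col.Yu x ≤ K.col.Yu (K.r 0) := K.col.Yu_ge h.hq h.cl h.cu (K.r 0) x hx.1
    (ha.mono fun t ht => ⟨ht.1, ht.2.trans hx.2⟩)
  have h3 : K.col.Yl x ≤ K.col.Yl K.w := Yl_mono K h ⟨hr.le.trans hx.1, hx.2⟩ ⟨h.hw.le, le_rfl⟩ hx.2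
  have h4 : K.col.Yl K.w ≤ K.col.Yu K.w := K.col.Yw (cReg K h)
  exact ⟨h1, h2, h3.trans h4, h3.trans (h4.trans (h1.trans h2))⟩

end Bd

end Pool.Agent.Lib.MP_1dedaf_gt.DK
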